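import Pool.Agent.X25.CT.Final

/-! Packing: wider shells from thinner ones, and all shifts. -/

set_option autoImplicit false

namespace Pool.Agent.X25.CT

open Finset MeasureTheory Filter Pool.Agent.X100.WS

variable {ι : Type*} [Fintype ι] [DecidableEq ι]

theorem RepC.pack {k : ℕ} (hk : 1 ≤ k) {θ : ι → ℝ} {κ κ' η : ℝ} (hκ' : 0 ≤ κ') (hκ : κ < κ') (hη : 0 < η)
    (hs : 0 ≤ (Fintype.card ι : ℝ) - k - κ') (h : RepC k θ κ' 1) : RepC k θ κ η := by
  classical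
  intro M
  obtain ⟨c, hc, h1⟩ := h M
  obtain ⟨r0, hr0⟩ := eventually_atTop.1 h1
  have hk0 : (0:ℝ) < k := by exact_mod_cast hk
  have hbig : ∀ᶠ r : ℝ in atTop, 1 ≤ η / 6 * r ^ (κ' - κ) := by
    have := (tendsto_rpow_atTop (show 0 < κ' - κ by linarith)).const_mul_atTop
      (show 0 < η / 6 by positivity)
    exact this.eventually (eventually_ge_atTop 1)
  refine ⟨η / 6 * c, by positivity, ?_⟩
  filter_upwards [hbig, eventually_ge_atTop (max r0 1)] with r hb hr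
  have hr1 : 1 ≤ r := (le_max_right _ _).trans hr
  have hrr0 : r0 ≤ r := (le_max_left _ _).trans hr
  have hrpos : 0 < r := by linarith
  set ω : ℝ := r ^ (-κ') with hω
  have hω0 : 0 < ω := by positivity
  set W : ℝ := η * r ^ (-κ) with hW
  have hW0 : 0 < W := by positivity
  set N : ℕ := ⌊W / (3 * ω)⌋₊ with hN
  have hWω : W / (3 * ω) = 2 * (η / 6 * r ^ (κ' - κ)) := by
    rw [hW, hω, sub_eq_add_neg, Real.rpow_add hrpos, Real.rpow_neg hrpos.le κ']
    field_simp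
    ring
  have hN1 : (N : ℝ) * (3 * ω) ≤ W := by
    have := Nat.floor_le (show 0 ≤ W / (3 * ω) by positivity)
    rwa [le_div_iff₀ (by positivity)] at this
  have hN2 : η / 6 * r ^ (κ' - κ) ≤ N := by
    have := Nat.lt_floor_add_one (W / (3 * ω))
    rw [← hN, hWω] at this
    linarith
  set ρ : ℕ → ℝ := fun i => (r ^ k + 3 * ω * i) ^ ((k : ℝ)⁻¹) with hρ
  have hbase : ∀ i : ℕ, 0 ≤ r ^ k + 3 * ω * i := fun i => by positivity
  have hρk : ∀ i, ρ i ^ k = r ^ k + 3 * ω * i := by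
    intro i
    rw [hρ]
    dsimp only
    rw [← Real.rpow_natCast, ← Real.rpow_mul (hbase i), inv_mul_cancel₀ hk0.ne', Real.rpow_one]
  have hρr : ∀ i, r ≤ ρ i := by
    intro i
    have h2 : r ^ k ≤ ρ i ^ k := by
      rw [hρk]
      have : 0 ≤ 3 * ω * (i:ℝ) := by positivity
      linarith
    exact le_of_pow_le_pow_left₀ (by omega) (Real.rpow_nonneg (hbase i) _) h2
  have hS : ∀ i : ℕ, ∃ S : Finset (ι → ℕ),
      c * r ^ ((Fintype.card ι : ℝ) - k - κ') ≤ (S.card : ℝ) ∧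
      ∀ x ∈ S, (∀ l, M ≤ x l) ∧ |∑ l, ((x l : ℝ) + θ l) ^ k - (r ^ k + 3 * ω * i)| ≤ ω := by
    intro i
    obtain ⟨S, hS1, hS2⟩ := hr0 (ρ i) (hrr0.trans (hρr i))
    refine ⟨S, le_trans ?_ hS1, fun x hx => ⟨(hS2 x hx).1, ?_⟩⟩
    · exact mul_le_mul_of_nonneg_left (Real.rpow_le_rpow hrpos.le (hρr i) hs) hc.le
    · have h3 := (hS2 x hx).2
      rw [hρk, one_mul] at h3
      refine h3.trans ?_
      rw [hω]
      exact Real.rpow_le_rpow_of_nonpos hrpos (hρr i) (by linarith)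
  choose S hS1 hS2 using hS
  have hdisj : ∀ i ∈ Finset.range N, ∀ j ∈ Finset.range N, i ≠ j → Disjoint (S i) (S j) := by
    intro i _ j _ hij
    rw [Finset.disjoint_left]
    intro x hx hx'
    have h2 := abs_le.1 (hS2 i x hx).2
    have h3 := abs_le.1 (hS2 j x hx').2
    have h4 : (1:ℝ) ≤ |(i:ℝ) - j| := by
      have : (1:ℤ) ≤ |(i:ℤ) - j| := Int.one_le_abs (by omega)
      exact_mod_cast this
    rcases le_abs.1 h4 with h5 | h5
    · nlinarith [h2.1, h2.2, h3.1, h3.2]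
    · nlinarith [h2.1, h2.2, h3.1, h3.2]
  refine ⟨(Finset.range N).biUnion S, ?_, fun x hx => ?_⟩
  · rw [Finset.card_biUnion hdisj]
    push_cast
    calc η / 6 * c * r ^ ((Fintype.card ι : ℝ) - k - κ)
        = (η / 6 * r ^ (κ' - κ)) * (c * r ^ ((Fintype.card ι : ℝ) - k - κ')) := by
          rw [show (Fintype.card ι : ℝ) - k - κ = (κ' - κ) + ((Fintype.card ι : ℝ) - k - κ') by ring,
            Real.rpow_add hrpos]
          ring
      _ ≤ (N : ℝ) * (c * r ^ ((Fintype.card ι : ℝ) - k - κ')) := by gcongr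
      _ = ∑ i ∈ Finset.range N, (c * r ^ ((Fintype.card ι : ℝ) - k - κ')) := by
          rw [Finset.sum_const, Finset.card_range, nsmul_eq_mul]
      _ ≤ ∑ i ∈ Finset.range N, ((S i).card : ℝ) := Finset.sum_le_sum fun i _ => hS1 i
  · rw [Finset.mem_biUnion] at hx
    obtain ⟨i, hi, hx⟩ := hx
    rw [Finset.mem_range] at hi
    refine ⟨(hS2 i x hx).1, ?_⟩
    have h2 := abs_le.1 (hS2 i x hx).2
    have h3 : (i:ℝ) + 1 ≤ N := by exact_mod_cast hi
    have h4 : 0 ≤ 3 * ω * (i:ℝ) := by positivity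
    rw [abs_le]
    constructor
    · nlinarith
    · nlinarith

omit [DecidableEq ι] in
lemma RepC.shift {k : ℕ} {θ : ι → ℝ} {κ η : ℝ} (z : ι → ℤ)
    (h : RepC k (fun i => θ i - z i) κ η) : RepC k θ κ η := by
  classical
  intro M
  set M' : ℕ := M + ∑ i, (z i).natAbs with hM'
  obtain ⟨c, hc, h1⟩ := h M'
  refine ⟨c, hc, ?_⟩
  filter_upwards [h1] with r hr
  obtain ⟨S, hS1, hS2⟩ := hr
  have hge : ∀ x ∈ S, ∀ i, (M : ℤ) ≤ (x i : ℤ) - z i := by
    intro x hx i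
    have h1 := (hS2 x hx).1 i
    have h2 : (z i).natAbs ≤ ∑ i, (z i).natAbs :=
      Finset.single_le_sum (f := fun i => (z i).natAbs) (fun _ _ => Nat.zero_le _)
        (Finset.mem_univ i)
    omega
  have hinj : Set.InjOn (fun (x : ι → ℕ) (i : ι) => ((x i : ℤ) - z i).toNat) (S : Set (ι → ℕ)) := by
    intro x hx y hy hxy
    funext i
    have h1 := hge x hx i
    have h2 := hge y hy i
    have h3 : ((x i : ℤ) - z i).toNat = ((y i : ℤ) - z i).toNat := congrFun hxy i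
    omega
  refine ⟨S.image fun (x : ι → ℕ) (i : ι) => ((x i : ℤ) - z i).toNat, ?_, fun y hy => ?_⟩
  · rw [Finset.card_image_of_injOn hinj]
    exact hS1
  · rw [Finset.mem_image] at hy
    obtain ⟨x, hx, rfl⟩ := hy
    refine ⟨fun i => ?_, ?_⟩
    · have := hge x hx i
      show M ≤ ((x i : ℤ) - z i).toNat
      omega
    · have e : ∀ i, (((((x i : ℤ) - z i).toNat : ℕ) : ℝ) + θ i) = (x i : ℝ) + (θ i - z i) := by
        intro i
        have h1 : ((((x i : ℤ) - z i).toNat : ℕ) : ℤ) = (x i : ℤ) - z i :=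
          Int.toNat_of_nonneg (by have := hge x hx i; omega)
        have h2 : ((((x i : ℤ) - z i).toNat : ℕ) : ℝ) = (x i : ℝ) - z i := by
          exact_mod_cast h1
        rw [h2]
        ring
      simp_rw [e]
      exact (hS2 x hx).2

theorem cube_allC (n m : ℕ) (hcard : Fintype.card ι = n + 3 + m) (hm : (n : ℝ) + 2 < 2 ^ m) :
    ∀ᵐ θ ∂(cube ι), ∀ κ η : ℝ, κ < (2 ^ m - ((n : ℝ) + 2)) / (2 ^ m + 1) → 0 < η →
      RepC (n + 2) θ κ η := by
  set κ0 : ℝ := (2 ^ m - ((n : ℝ) + 2)) / (2 ^ m + 1) with hκ0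
  have hκ0pos : 0 < κ0 := div_pos (by linarith) (by positivity)
  have hκ01 : κ0 < 1 := by
    rw [hκ0, div_lt_one (by positivity)]
    have : (0:ℝ) ≤ n := by positivity
    linarith
  have h1 : ∀ q : ℕ, ∀ᵐ θ ∂(cube ι), RepC (n + 2) θ (κ0 * (1 - 1 / ((q : ℝ) + 1))) 1 := by
    intro q
    have hq : 0 < 1 / ((q : ℝ) + 1) := by positivity
    have hq1 : 1 / ((q : ℝ) + 1) ≤ 1 := by
      rw [div_le_one (by positivity)]
      have : (0:ℝ) ≤ q := by positivity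
      linarith
    refine cube_mainC n m hcard (by nlinarith) ?_ one_pos
    have h2 : κ0 * (1 - 1 / ((q : ℝ) + 1)) < κ0 := by nlinarith
    have h3 : κ0 * (1 - 1 / ((q : ℝ) + 1)) * (2 ^ m + 1) < 2 ^ m - ((n : ℝ) + 2) := by
      rw [hκ0, lt_div_iff₀ (by positivity)] at h2
      rw [hκ0]
      exact h2
    nlinarith
  filter_upwards [ae_all_iff.2 h1] with θ hθ κ η hκ hη
  obtain ⟨q, hq⟩ := exists_nat_one_div_lt (show 0 < (κ0 - max κ 0) / κ0 from
    div_pos (sub_pos.2 (max_lt hκ hκ0pos)) hκ0pos)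
  have hq' : max κ 0 < κ0 * (1 - 1 / ((q : ℝ) + 1)) := by
    rw [lt_div_iff₀ hκ0pos] at hq
    linarith
  refine RepC.pack (by omega) ((le_max_right κ 0).trans hq'.le) ((le_max_left κ 0).trans_lt hq') hη ?_ (hθ q)
  have hq0 : 0 < 1 / ((q : ℝ) + 1) := by positivity
  have h2 : κ0 * (1 - 1 / ((q : ℝ) + 1)) < 1 := by nlinarith
  rw [hcard]
  push_cast
  have : (0:ℝ) ≤ m := by positivity
  linarith

/-- The counting theorem for almost all shifts. -/
theorem mainC (n m : ℕ) (hcard : Fintype.card ι = n + 3 + m) (hm : (n : ℝ) + 2 < 2 ^ m) :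
    ∀ᵐ θ : ι → ℝ, ∀ κ η : ℝ, κ < (2 ^ m - ((n : ℝ) + 2)) / (2 ^ m + 1) → 0 < η →
      RepC (n + 2) θ κ η := by
  set κ0 : ℝ := (2 ^ m - ((n : ℝ) + 2)) / (2 ^ m + 1) with hκ0
  have h1 := cube_allC (ι := ι) n m hcard hm
  have hcube : cube ι = (volume : Measure (ι → ℝ)).restrict (Set.univ.pi fun _ => Set.Icc 0 1) := by
    unfold cube
    rw [volume_pi, Measure.restrict_pi_pi]
  rw [hcube, ae_restrict_iff' (MeasurableSet.univ_pi fun _ => measurableSet_Icc)] at h1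
  have h2 : ∀ z : ι → ℤ, ∀ᵐ θ : ι → ℝ, (fun i => θ i - (z i : ℝ)) ∈ (Set.univ.pi fun _ => Set.Icc (0:ℝ) 1) →
      ∀ κ η : ℝ, κ < κ0 → 0 < η → RepC (n + 2) (fun i => θ i - (z i : ℝ)) κ η := by
    intro z
    exact (measurePreserving_sub_right (volume : Measure (ι → ℝ))
      (fun i => (z i : ℝ))).quasiMeasurePreserving.ae h1
  filter_upwards [ae_all_iff.2 h2] with θ hθ κ η hκ hη
  refine RepC.shift (fun i => ⌊θ i⌋) (hθ (fun i => ⌊θ i⌋) ?_ κ η hκ hη)
  intro i _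
  have h3 := Int.self_sub_floor (θ i)
  show θ i - (⌊θ i⌋ : ℝ) ∈ Set.Icc (0:ℝ) 1
  rw [h3]
  exact ⟨Int.fract_nonneg _, (Int.fract_lt_one _).le⟩

end Pool.Agent.X25.CT
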