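import Pool.Agent.X25.CT.Pack

/-! Sums of shifted powers of positive integers. -/

set_option autoImplicit false

namespace Pool.Agent.X25.CT

open Finset MeasureTheory Filter Pool.Agent.X100.WS

lemma sum_finite {k s : ℕ} (hk : 1 ≤ k) {θ : Fin s → ℝ} (hθ : ∀ i, 0 ≤ θ i) (δ τ : ℝ) :
    {x : Fin s → ℕ | (∀ i, 1 ≤ x i) ∧ |∑ i, ((x i : ℝ) + θ i) ^ k - τ| ≤ δ}.Finite := by
  obtain ⟨B, hB⟩ := exists_nat_ge (τ + δ)
  refine (Set.Finite.pi' (t := fun _ : Fin s => (Set.Iic B : Set ℕ)) fun _ => Set.finite_Iic B).subset ?_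
  intro x hx i
  rw [Set.mem_Iic]
  have h1 := (abs_le.1 hx.2).2
  have h2 : ((x i : ℝ) + θ i) ^ k ≤ ∑ i, ((x i : ℝ) + θ i) ^ k :=
    Finset.single_le_sum (f := fun i => ((x i : ℝ) + θ i) ^ k)
      (fun i _ => by have := hθ i; positivity) (Finset.mem_univ i)
  have h3 : (1:ℝ) ≤ x i := by exact_mod_cast hx.1 i
  have h4 : (x i : ℝ) ≤ ((x i : ℝ) + θ i) ^ k := by
    refine le_trans ?_ (le_self_pow₀ (by linarith [hθ i]) (by omega))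
    linarith [hθ i]
  have h5 : (x i : ℝ) ≤ B := by linarith
  exact_mod_cast h5

theorem shift_few (k s : ℕ) (hk : 2 ≤ k) (hs : k < 2 ^ (s - k - 1)) :
    ∀ᵐ θ : Fin s → ℝ, (∀ i, 0 ≤ θ i) → ∀ κ η : ℝ,
      κ < ((2:ℝ) ^ (s - k - 1) - k) / (k * ((2:ℝ) ^ (s - k - 1) + 1)) → 0 < η →
      ∃ c : ℝ, 0 < c ∧ ∃ τ₀ : ℝ, ∀ τ : ℝ, τ₀ ≤ τ →
        c * τ ^ ((s : ℝ) / k - 1 - κ) ≤
          ({x : Fin s → ℕ | (∀ i, 1 ≤ x i) ∧
            |∑ i, ((x i : ℝ) + θ i) ^ k - τ| ≤ η * τ ^ (-κ)}.ncard : ℝ) := by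
  obtain ⟨n, rfl⟩ : ∃ n, k = n + 2 := ⟨k - 2, by omega⟩
  have hd1 : 1 ≤ s - (n + 2) - 1 := by
    by_contra hcon
    have : s - (n + 2) - 1 = 0 := by omega
    rw [this] at hs
    omega
  set m := s - (n + 2) - 1 with hm
  have hcard : Fintype.card (Fin s) = n + 3 + m := by rw [Fintype.card_fin]; omega
  have hm2 : (n : ℝ) + 2 < 2 ^ m := by exact_mod_cast hs
  have h1 := mainC (ι := Fin s) n m hcard hm2
  have hk0 : (0:ℝ) < ((n + 2 : ℕ) : ℝ) := by positivity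
  filter_upwards [h1] with θ hθ hθ0 κ η hκ hη
  set K : ℝ := ((n + 2 : ℕ) : ℝ) with hK
  have hκ' : K * κ < (2 ^ m - ((n : ℝ) + 2)) / (2 ^ m + 1) := by
    rw [lt_div_iff₀ (by positivity)] at hκ ⊢
    have e : K = (n : ℝ) + 2 := by rw [hK]; push_cast; ring
    rw [e] at hκ ⊢
    nlinarith
  obtain ⟨c, hc, h3⟩ := hθ (K * κ) η hκ' hη 1
  obtain ⟨r₀, hr₀⟩ := eventually_atTop.1 h3
  refine ⟨c, hc, (max r₀ 1) ^ (n + 2), fun τ hτ => ?_⟩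
  have hm1 : (1:ℝ) ≤ max r₀ 1 := le_max_right _ _
  have hτ1 : 1 ≤ τ := (one_le_pow₀ hm1).trans hτ
  have hτ0 : 0 < τ := by linarith
  set r : ℝ := τ ^ (K⁻¹) with hr
  have hr0 : 0 < r := by positivity
  have hrk : r ^ (n + 2) = τ := by
    rw [hr, ← Real.rpow_natCast, ← Real.rpow_mul hτ0.le, inv_mul_cancel₀ hk0.ne', Real.rpow_one]
  have hrr : r₀ ≤ r := by
    have h4 : (max r₀ 1) ^ (n + 2) ≤ r ^ (n + 2) := by rw [hrk]; exact hτ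
    exact (le_max_left _ _).trans (le_of_pow_le_pow_left₀ (by omega) hr0.le h4)
  have hexp : ∀ y : ℝ, r ^ (K * y) = τ ^ y := by
    intro y
    rw [hr, ← Real.rpow_mul hτ0.le]
    congr 1
    field_simp
  obtain ⟨S, hS1, hS2⟩ := hr₀ r hrr
  rw [Fintype.card_fin] at hS1
  have e1 : r ^ ((s : ℝ) - K - K * κ) = τ ^ ((s : ℝ) / K - 1 - κ) := by
    rw [← hexp]
    congr 1
    field_simp
  rw [e1] at hS1
  refine hS1.trans ?_
  have hle : S.card ≤ {x : Fin s → ℕ | (∀ i, 1 ≤ x i) ∧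
            |∑ i, ((x i : ℝ) + θ i) ^ (n + 2) - τ| ≤ η * τ ^ (-κ)}.ncard := by
    rw [← Set.ncard_coe_finset]
    refine Set.ncard_le_ncard ?_ (sum_finite (by omega) hθ0 _ _)
    intro x hx
    have h4 := hS2 x (by exact_mod_cast hx)
    refine ⟨h4.1, ?_⟩
    have h5 := h4.2
    rw [hrk, show -(K * κ) = K * (-κ) by ring, hexp] at h5
    exact h5
  exact_mod_cast hle

end Pool.Agent.X25.CT
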