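import Pool.Agent.X100.WS.Final

/-! Counting versions: representations by shifted powers, one more variable. -/

set_option autoImplicit false

namespace Pool.Agent.X25.CT

open Finset MeasureTheory Pool.Agent.X100.WS

variable {ι : Type*} [Fintype ι] [DecidableEq ι]

open Classical in
/-- The representations `F J x θ ≈ t` with `P ≤ x i < M` for `i ∈ J` and `x i = 0` otherwise. -/
noncomputable def rp (J : Finset ι) (n P M : ℕ) (r : ℝ) (θ : ι → ℝ) (t : ℝ) : Finset (ι → ℕ) :=
  (Fintype.piFinset fun i => if i ∈ J then Finset.Ico P M else {0}).filter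
    fun x => |F J (n + 2) x θ - t| ≤ r

lemma mem_rp {J : Finset ι} {n P M : ℕ} {r : ℝ} {θ : ι → ℝ} {t : ℝ} {x : ι → ℕ} :
    x ∈ rp J n P M r θ t ↔ (∀ i ∈ J, P ≤ x i ∧ x i < M) ∧ (∀ i, i ∉ J → x i = 0) ∧
      |F J (n + 2) x θ - t| ≤ r := by
  classical
  unfold rp
  rw [Finset.mem_filter, Fintype.mem_piFinset, ← and_assoc]
  refine and_congr_left fun _ => ?_
  constructor
  · intro h
    refine ⟨fun i hi => ?_, fun i hi => ?_⟩
    · have := h i
      rw [if_pos hi] at this
      exact Finset.mem_Ico.1 this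
    · have := h i
      rw [if_neg hi] at this
      exact Finset.mem_singleton.1 this
  · rintro ⟨h1, h2⟩ i
    by_cases hi : i ∈ J
    · rw [if_pos hi]
      exact Finset.mem_Ico.2 (h1 i hi)
    · rw [if_neg hi]
      exact Finset.mem_singleton.2 (h2 i hi)

omit [Fintype ι] in
lemma F_insert {J : Finset ι} {i : ι} (hi : i ∉ J) (k : ℕ) (y : ι → ℕ) (m : ℕ) (θ : ι → ℝ) (s : ℝ) :
    F (insert i J) k (Function.update y i m) (Function.update θ i s)
      = F J k y θ + ((m : ℝ) + s) ^ k := by
  unfold F
  rw [Finset.sum_insert hi, add_comm]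
  congr 1
  · refine Finset.sum_congr rfl fun l hl => ?_
    have hl' : l ≠ i := fun h => hi (by rw [← h]; exact hl)
    rw [Function.update_of_ne hl', Function.update_of_ne hl']
  · rw [Function.update_self, Function.update_self]

lemma rp_insert {J : Finset ι} {i : ι} (hi : i ∉ J) (n P M : ℕ) (r : ℝ) (θ : ι → ℝ) (s t : ℝ) :
    ∑ m ∈ Finset.Ico P M, (rp J n P M r θ (t - ((m : ℝ) + s) ^ (n + 2))).card
      ≤ (rp (insert i J) n P M r (Function.update θ i s) t).card := by
  classical
  rw [← Finset.card_sigma]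
  refine Finset.card_le_card_of_injOn (fun p => Function.update p.2 i p.1) ?_ ?_
  · rintro ⟨m, y⟩ hp
    rw [Finset.mem_coe, Finset.mem_sigma] at hp
    obtain ⟨hm, hy⟩ := hp
    dsimp only at hm hy
    rw [mem_rp] at hy
    rw [Finset.mem_Ico] at hm
    rw [Finset.mem_coe, mem_rp]
    refine ⟨fun l hl => ?_, fun l hl => ?_, ?_⟩
    · by_cases hl' : l = i
      · subst hl'
        dsimp only
        rw [Function.update_self]
        exact hm
      · dsimp only
        rw [Function.update_of_ne hl']
        exact hy.1 l ((Finset.mem_insert.1 hl).resolve_left hl')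
    · rw [Finset.mem_insert, not_or] at hl
      dsimp only
      rw [Function.update_of_ne hl.1]
      exact hy.2.1 l hl.2
    · dsimp only
      rw [F_insert hi]
      have e : F J (n + 2) y θ + ((m : ℝ) + s) ^ (n + 2) - t
          = F J (n + 2) y θ - (t - ((m : ℝ) + s) ^ (n + 2)) := by ring
      rw [e]
      exact hy.2.2
  · rintro ⟨m, y⟩ hp ⟨m', y'⟩ hp' heq
    rw [Finset.mem_coe, Finset.mem_sigma] at hp hp'
    have h1 := (mem_rp.1 hp.2).2.1
    have h2 := (mem_rp.1 hp'.2).2.1
    dsimp only at heq h1 h2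
    have hm : m = m' := by
      have := congrFun heq i
      rwa [Function.update_self, Function.update_self] at this
    subst hm
    have hy : y = y' := by
      funext l
      by_cases hl : l = i
      · subst hl
        rw [h1 l hi, h2 l hi]
      · have := congrFun heq l
        rwa [Function.update_of_ne hl, Function.update_of_ne hl] at this
    subst hy
    rfl

/-- The smoothed count is at most the number of representations. -/
lemma card_ge (n : ℕ) {K : Finset ι} {o : ι} (ho : o ∉ K) {P M : ℕ} (hP : 2 ≤ P)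
    {θ : ι → ℝ} {T1 T2 B r : ℝ} (hB : 1 ≤ B) (hr : 0 < r) (hr1 : r ≤ 1) (hM : (B + 2) * P ≤ M)
    (h1 : ∀ x ∈ box K P, (2 * (P:ℝ)) ^ (n + 2) ≤ T1 - F K (n + 2) x θ)
    (h3 : ∀ x ∈ box K P, T2 - F K (n + 2) x θ ≤ (B * P) ^ (n + 2)) {t s : ℝ}
    (ht : t ∈ Set.Icc T1 T2) (hs : s ∈ Set.Icc (0:ℝ) 1) :
    cnt n (r / (kap n B * (P:ℝ) ^ (n + 1))) (box K P) (fun x => F K (n + 2) x θ) t s
      ≤ ((rp (insert o K) n P M r (Function.update θ o s) t).card : ℝ) := by
  classical
  have hP0 : 0 < P := by omega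
  have hP2 : (2:ℝ) ≤ P := by exact_mod_cast hP
  have hP1 : (0:ℝ) < P := by linarith
  have hB0 : 0 < B := by linarith
  have hkap : 0 < kap n B := by unfold kap; positivity
  set d := r / (kap n B * (P:ℝ) ^ (n + 1)) with hd
  have hd0 : 0 < d := by positivity
  set c : (ι → ℕ) → ℝ := fun x => F K (n + 2) x θ with hc
  set S := (box K P).filter fun y => chi d (root n (t - c y) - s) ≠ 0 with hS
  have hrep : ∀ y ∈ S, ∃ m : ℕ, P ≤ m ∧ m < M ∧ |c y + ((m : ℝ) + s) ^ (n + 2) - t| ≤ r := by
    intro y hy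
    rw [hS, Finset.mem_filter] at hy
    have hne : cnt n d {y} c t s ≠ 0 := by
      unfold cnt
      rw [Finset.sum_singleton]
      exact hy.2
    obtain ⟨y', hy', m, hm1, hm2⟩ := repr_of_cnt n (Y := {y}) (c := c) hP2 hB hr hr1
      (fun z hz => by rw [Finset.mem_singleton.1 hz]; exact h1 y hy.1)
      (fun z hz => by rw [Finset.mem_singleton.1 hz]; exact h3 y hy.1) ht hs hne
    rw [Finset.mem_singleton] at hy'
    subst hy'
    refine ⟨m, by exact_mod_cast hm1, ?_, hm2⟩
    have h4 := (abs_le.1 hm2).2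
    have h5 := h3 y' hy.1
    have h6 : ((m : ℝ) + s) ^ (n + 2) ≤ (B * P) ^ (n + 2) + 1 := by
      have := ht.2
      have e : c y' = F K (n + 2) y' θ := rfl
      rw [← e] at h5
      linarith
    have h7 : (B * P) ^ (n + 2) + 1 ≤ (B * P + 1) ^ (n + 2) := by
      have hBP : 0 ≤ B * P := by positivity
      have := one_add_mul_le_pow (a := B * P) (by linarith) (n + 2)
      calc (B * (P:ℝ)) ^ (n + 2) + 1 = (B * P) ^ (n + 2) + 1 ^ (n + 2) := by rw [one_pow]
        _ ≤ (B * P + 1) ^ (n + 2) := pow_add_pow_le hBP zero_le_one (by omega)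
    have h8 : (m : ℝ) + s ≤ B * P + 1 := by
      by_contra hcon
      push Not at hcon
      have : (B * (P:ℝ) + 1) ^ (n + 2) < ((m : ℝ) + s) ^ (n + 2) :=
        pow_lt_pow_left₀ hcon (by positivity) (by omega)
      linarith
    have h9 : (m : ℝ) < M := by
      have := hs.1
      nlinarith
    exact_mod_cast h9
  choose! m hm1 hm2 hm3 using hrep
  have hle : cnt n d (box K P) c t s ≤ (S.card : ℝ) := by
    unfold cnt
    rw [hS, ← Finset.sum_filter_ne_zero]
    calc _ ≤ ∑ y ∈ (box K P).filter (fun y => chi d (root n (t - c y) - s) ≠ 0), (1:ℝ) :=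
          Finset.sum_le_sum fun y _ => chi_le_one hd0 _
      _ = _ := by simp
  refine hle.trans ?_
  have hcard : S.card ≤ (rp (insert o K) n P M r (Function.update θ o s) t).card := by
    set z : (ι → ℕ) → ι → ℕ := fun y => Function.update (fun l => if l ∈ K then y l else 0) o (m y)
      with hz
    refine Finset.card_le_card_of_injOn z ?_ ?_
    · intro y hy
      rw [Finset.mem_coe] at hy
      have hyb : y ∈ box K P := (Finset.mem_filter.1 hy).1
      have hPM : 2 * P ≤ M := by
        have : (2 * (P:ℝ)) ≤ M := by nlinarith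
        exact_mod_cast this
      rw [Finset.mem_coe, mem_rp]
      refine ⟨fun l hl => ?_, fun l hl => ?_, ?_⟩
      · by_cases hl' : l = o
        · subst hl'
          rw [hz]
          dsimp only
          rw [Function.update_self]
          exact ⟨hm1 y hy, hm2 y hy⟩
        · have hlK := (Finset.mem_insert.1 hl).resolve_left hl'
          rw [hz]
          dsimp only
          rw [Function.update_of_ne hl', if_pos hlK]
          have := mem_box hP0 hyb l
          omega
      · rw [Finset.mem_insert, not_or] at hl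
        rw [hz]
        dsimp only
        rw [Function.update_of_ne hl.1, if_neg hl.2]
      · rw [hz]
        dsimp only
        rw [F_insert ho]
        have e : F K (n + 2) (fun l => if l ∈ K then y l else 0) θ = c y := by
          rw [hc]
          unfold F
          refine Finset.sum_congr rfl fun l hl => ?_
          dsimp only
          rw [if_pos hl]
        rw [e]
        exact hm3 y hy
    · intro y hy y' hy' heq
      rw [Finset.mem_coe] at hy hy'
      refine box_ext (Finset.mem_filter.1 hy).1 (Finset.mem_filter.1 hy').1 fun l hl => ?_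
      have hl' : l ≠ o := fun h => ho (by rw [← h]; exact hl)
      have := congrFun heq l
      rw [hz] at this
      dsimp only at this
      rwa [Function.update_of_ne hl', Function.update_of_ne hl', if_pos hl, if_pos hl] at this
  exact_mod_cast hcard

/-- Chebyshev: few shifts `s` leave a large set of `t` with a small count. -/
lemma cheb_half {β : Type*} (n : ℕ) {d : ℝ} (hd : 0 < d) (hd1 : d ≤ 1) {Y : Finset β}
    (hY : Y.Nonempty) (c : β → ℝ) {T1 T2 V L : ℝ} (hT : T1 ≤ T2) (hL : 0 < L)
    (hV : ∫ s in (0:ℝ)..1, ∫ t in T1..T2, (cnt n d Y c t s - Y.card * mass d) ^ 2 ≤ V) :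
    (volume.restrict (Set.Icc (0:ℝ) 1)).real
      {s | L ≤ volume.real {t | t ∈ Set.Icc T1 T2 ∧ cnt n d Y c t s < Y.card * mass d / 2}}
      ≤ 4 * (V / ((Y.card * mass d) ^ 2 * L)) := by
  have hm : 0 < mass d := lt_of_lt_of_le (by positivity) (mass_ge hd hd1)
  have hY0 : (0:ℝ) < Y.card := by exact_mod_cast Finset.card_pos.2 hY
  set M : ℝ := Y.card * mass d with hM
  have hM0 : 0 < M := by positivity
  set W : ℝ → ℝ := fun s => ∫ t in T1..T2, (cnt n d Y c t s - M) ^ 2 with hW
  have hcs := cnt_continuous n d Y c M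
  have hWc : Continuous W := by
    apply intervalIntegral.continuous_parametric_intervalIntegral_of_continuous'
    exact hcs
  have hWnn : ∀ s, 0 ≤ W s := fun s =>
    intervalIntegral.integral_nonneg hT fun t _ => sq_nonneg _
  have hsub : ∀ s, L ≤ volume.real {t | t ∈ Set.Icc T1 T2 ∧ cnt n d Y c t s < M / 2} →
      M ^ 2 / 4 * L ≤ W s := by
    intro s hs
    set Z : Set ℝ := {t | t ∈ Set.Icc T1 T2 ∧ cnt n d Y c t s < M / 2} with hZ
    have hcs' := cnt_continuous_left n d Y c s
    have hZm : MeasurableSet Z :=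
      measurableSet_Icc.inter (isOpen_lt hcs' continuous_const).measurableSet
    have hZsub : Z ⊆ Set.Icc T1 T2 := fun t ht => ht.1
    have hint : IntegrableOn (fun t => (cnt n d Y c t s - M) ^ 2) (Set.Icc T1 T2) :=
      ((hcs'.sub continuous_const).pow 2).continuousOn.integrableOn_Icc
    have h1 : W s = ∫ t in Set.Icc T1 T2, (cnt n d Y c t s - M) ^ 2 := by
      rw [hW]
      dsimp only
      rw [intervalIntegral.integral_of_le hT, integral_Icc_eq_integral_Ioc]
    have h2 : ∫ t in Z, (cnt n d Y c t s - M) ^ 2 ≤ ∫ t in Set.Icc T1 T2, (cnt n d Y c t s - M) ^ 2 :=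
      setIntegral_mono_set hint (Filter.Eventually.of_forall fun t => sq_nonneg _)
        (LE.le.eventuallyLE hZsub)
    have hZfin : volume Z ≠ ⊤ := measure_ne_top_of_subset hZsub measure_Icc_lt_top.ne
    have h3 : ∫ t in Z, M ^ 2 / 4 ≤ ∫ t in Z, (cnt n d Y c t s - M) ^ 2 := by
      refine setIntegral_mono_on (integrableOn_const hZfin) (hint.mono_set hZsub) hZm fun t ht => ?_
      have h4 := ht.2
      nlinarith
    rw [h1]
    refine le_trans ?_ h2
    refine le_trans ?_ h3
    rw [setIntegral_const, smul_eq_mul, mul_comm]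
    exact mul_le_mul_of_nonneg_right hs (by positivity)
  have hmarkov := mul_meas_ge_le_integral_of_nonneg
    (μ := volume.restrict (Set.Icc (0:ℝ) 1)) (f := W) (Filter.Eventually.of_forall hWnn)
    hWc.continuousOn.integrableOn_Icc (M ^ 2 / 4 * L)
  have hint : ∫ s, W s ∂(volume.restrict (Set.Icc (0:ℝ) 1))
      = ∫ s in (0:ℝ)..1, ∫ t in T1..T2, (cnt n d Y c t s - M) ^ 2 := by
    rw [intervalIntegral.integral_of_le zero_le_one, integral_Icc_eq_integral_Ioc]
  rw [hint] at hmarkov
  have hmono : (volume.restrict (Set.Icc (0:ℝ) 1)).real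
      {s | L ≤ volume.real {t | t ∈ Set.Icc T1 T2 ∧ cnt n d Y c t s < M / 2}}
      ≤ (volume.restrict (Set.Icc (0:ℝ) 1)).real {s | M ^ 2 / 4 * L ≤ W s} :=
    measureReal_mono (fun s hs => hsub s hs)
  have e : 4 * (V / (M ^ 2 * L)) = V / (M ^ 2 / 4 * L) := by
    field_simp
  rw [e, le_div_iff₀ (by positivity)]
  calc _ ≤ (volume.restrict (Set.Icc (0:ℝ) 1)).real {s | M ^ 2 / 4 * L ≤ W s} * (M ^ 2 / 4 * L) :=
        mul_le_mul_of_nonneg_right hmono (by positivity)
    _ = (M ^ 2 / 4 * L) * (volume.restrict (Set.Icc (0:ℝ) 1)).real {s | M ^ 2 / 4 * L ≤ W s} :=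
        mul_comm _ _
    _ ≤ _ := hmarkov
    _ ≤ V := hV

end Pool.Agent.X25.CT
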