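import Pool.Agent.X25.CT.Start

/-! Many representations, for almost all shifts. -/

set_option autoImplicit false

namespace Pool.Agent.X25.CT

open Finset MeasureTheory Filter Pool.Agent.X100.WS

variable {ι : Type*} [Fintype ι] [DecidableEq ι]

/-- Many representations of all large real numbers. -/
def RepC (k : ℕ) (θ : ι → ℝ) (κ η : ℝ) : Prop :=
  ∀ M : ℕ, ∃ c : ℝ, 0 < c ∧ ∀ᶠ r : ℝ in atTop, ∃ S : Finset (ι → ℕ),
    c * r ^ ((Fintype.card ι : ℝ) - k - κ) ≤ (S.card : ℝ) ∧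
    ∀ x ∈ S, (∀ i, M ≤ x i) ∧ |∑ i, ((x i : ℝ) + θ i) ^ k - r ^ k| ≤ η * r ^ (-κ)

lemma coverC (n : ℕ) {E : ℝ} {r w : ℕ → ℝ} {M : ℕ → ℕ} {j : ℕ} {θ : ι → ℝ} (hr : 0 < r j)
    (h : volume (BadSC n E r w M Finset.univ j θ) < ENNReal.ofReal (r j)) {τ : ℝ}
    (h1 : 2 ^ (n + 2) * Fintype.card ι * (PP j : ℝ) ^ (n + 2) ≤ τ)
    (h2 : τ + r j ≤ E * (PP j : ℝ) ^ (n + 2)) :
    ∃ S : Finset (ι → ℕ), w j ≤ (S.card : ℝ) ∧ ∀ x ∈ S, (∀ i, PP j ≤ x i) ∧
      |∑ i, ((x i : ℝ) + θ i) ^ (n + 2) - τ| ≤ 2 * r j := by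
  have hex : ∃ t ∈ Set.Icc τ (τ + r j), t ∉ BadSC n E r w M Finset.univ j θ := by
    by_contra hcon
    push Not at hcon
    have h3 := measure_mono (μ := volume) (fun t ht => hcon t ht)
    rw [Real.volume_Icc, add_sub_cancel_left] at h3
    exact absurd (h3.trans_lt h) (lt_irrefl _)
  obtain ⟨t, ht, hbad⟩ := hex
  have hw : w j ≤ ((rp Finset.univ n (PP j) (M j) (r j) θ t).card : ℝ) := by
    by_contra hlt
    push Not at hlt
    apply hbad
    refine ⟨⟨?_, ht.2.trans h2⟩, hlt⟩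
    rw [Finset.card_univ]
    exact h1.trans ht.1
  refine ⟨_, hw, fun x hx => ?_⟩
  rw [mem_rp] at hx
  refine ⟨fun i => (hx.1 i (Finset.mem_univ i)).1, ?_⟩
  have h3 := hx.2.2
  unfold F at h3
  rw [abs_le] at h3 ⊢
  constructor
  · linarith [h3.1, ht.1]
  · linarith [h3.2, ht.2]

lemma repC_of_small (n m : ℕ) {κ η η0 c1 : ℝ} (hκ0 : 0 ≤ κ) (hκ1 : κ ≤ 1) (hη0 : 0 < η0) (hη1 : η0 ≤ 1)
    (hc1 : 0 < c1) (hcard : Fintype.card ι = n + 3 + m)
    (hη : 2 * η0 * (4 * (Fintype.card ι : ℝ)) ^ κ ≤ η) {M : ℕ → ℕ} {θ : ι → ℝ}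
    (h : ∀ᶠ j in atTop, volume (BadSC n (4 ^ (n + 2) * Fintype.card ι + 1)
      (fun j => η0 * (PP j : ℝ) ^ (-κ)) (fun j => c1 * (PP j : ℝ) ^ ((m : ℝ) + 1 - κ)) M Finset.univ j θ)
      < ENNReal.ofReal (η0 * (PP j : ℝ) ^ (-κ))) : RepC (n + 2) θ κ η := by
  have hs : 0 < Fintype.card ι := by omega
  have hs0 : (1:ℝ) ≤ Fintype.card ι := by exact_mod_cast hs
  have hse : ((Fintype.card ι : ℕ) : ℝ) - ((n + 2 : ℕ) : ℝ) = (m : ℝ) + 1 := by
    rw [hcard]; push_cast; ring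
  set s : ℝ := ((Fintype.card ι : ℕ) : ℝ) with hsdef
  have hs1 : 0 < s := by linarith
  have hm0 : (0:ℝ) ≤ m := by positivity
  intro M0
  refine ⟨c1 * ((4 * s) ^ ((m : ℝ) + 1 - κ))⁻¹, by positivity, ?_⟩
  obtain ⟨N, hN⟩ := eventually_atTop.1 (h.and
    (PP_tendsto.eventually (eventually_ge_atTop (M0 : ℝ))))
  set a : ℕ → ℝ := fun j => 2 ^ (n + 2) * s * (PP j : ℝ) ^ (n + 2) with ha
  have hat : Tendsto a atTop atTop := by
    apply Tendsto.const_mul_atTop (by positivity)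
    exact (tendsto_pow_atTop (by omega)).comp PP_tendsto
  have hrt : Tendsto (fun r : ℝ => r ^ (n + 2)) atTop atTop := tendsto_pow_atTop (by omega)
  filter_upwards [hrt.eventually (eventually_ge_atTop (a N)), eventually_gt_atTop 0] with r hτ hr0
  obtain ⟨j, hNj, h3, h4⟩ := find_scale hat N hτ
  obtain ⟨h5, h7⟩ := hN j hNj
  have hP := PP_pos' j
  have hPP : (PP (j + 1) : ℝ) = 2 * PP j := by
    unfold PP; push_cast; ring
  have h4' : r ^ (n + 2) < 4 ^ (n + 2) * s * (PP j : ℝ) ^ (n + 2) := by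
    refine h4.trans_le (le_of_eq ?_)
    rw [ha]
    dsimp only
    rw [hPP, mul_pow, show (4:ℝ) = 2 * 2 by norm_num, mul_pow 2 2]
    ring
  have hP1 : (1:ℝ) ≤ (PP j : ℝ) ^ (n + 2) := one_le_pow₀ (by exact_mod_cast PP_pos j)
  have hrr : η0 * (PP j : ℝ) ^ (-κ) ≤ 1 := by
    have := rr_le hκ0 j
    have h8 : 0 < (PP j : ℝ) ^ (-κ) := Real.rpow_pos_of_pos hP _
    nlinarith
  have hr4 : r ≤ 4 * s * PP j := by
    have h8 : r ^ (n + 2) ≤ (4 * s * PP j) ^ (n + 2) := by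
      rw [mul_pow, mul_pow]
      have h9 : s ≤ s ^ (n + 2) := le_self_pow₀ hs0 (by omega)
      refine h4'.le.trans ?_
      gcongr
    exact le_of_pow_le_pow_left₀ (by omega) (by positivity) h8
  obtain ⟨S, hS1, hS2⟩ := coverC n (M := M) (by positivity) h5 h3 (by
    have : r ^ (n + 2) < 4 ^ (n + 2) * s * (PP j : ℝ) ^ (n + 2) := h4'
    nlinarith)
  refine ⟨S, ?_, fun x hx => ⟨fun i => ?_, ?_⟩⟩
  · refine le_trans ?_ hS1
    rw [hse, mul_assoc]
    refine mul_le_mul_of_nonneg_left ?_ hc1.le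
    have h8 : r ^ ((m : ℝ) + 1 - κ) ≤ (4 * s * PP j) ^ ((m : ℝ) + 1 - κ) :=
      Real.rpow_le_rpow hr0.le hr4 (by linarith)
    rw [Real.mul_rpow (by positivity) hP.le] at h8
    rw [inv_mul_le_iff₀ (by positivity)]
    exact h8
  · have : (M0 : ℝ) ≤ x i := h7.trans (by exact_mod_cast (hS2 x hx).1 i)
    exact_mod_cast this
  · refine (hS2 x hx).2.trans ?_
    have h8 : r ^ κ ≤ (4 * s) ^ κ * (PP j : ℝ) ^ κ := by
      rw [← Real.mul_rpow (by positivity) hP.le]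
      exact Real.rpow_le_rpow hr0.le hr4 hκ0
    have h9 : (PP j : ℝ) ^ (-κ) ≤ (4 * s) ^ κ * r ^ (-κ) := by
      rw [Real.rpow_neg hP.le, Real.rpow_neg hr0.le, inv_le_iff_one_le_mul₀ (by positivity)]
      rw [mul_assoc, mul_comm, mul_assoc, inv_mul_eq_div, le_div_iff₀ (by positivity), one_mul,
        mul_comm ((PP j : ℝ) ^ κ)]
      exact h8
    calc 2 * (η0 * (PP j : ℝ) ^ (-κ)) = 2 * η0 * (PP j : ℝ) ^ (-κ) := by ring
      _ ≤ 2 * η0 * ((4 * s) ^ κ * r ^ (-κ)) := by gcongr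
      _ = 2 * η0 * (4 * s) ^ κ * r ^ (-κ) := by ring
      _ ≤ η * r ^ (-κ) := by gcongr

theorem cube_mainC (n m : ℕ) (hcard : Fintype.card ι = n + 3 + m) {κ η : ℝ} (hκ0 : 0 ≤ κ)
    (hκ : (n : ℝ) + 2 + κ < 2 ^ m * (1 - κ)) (hη : 0 < η) :
    ∀ᵐ θ ∂(cube ι), RepC (n + 2) θ κ η := by
  have hκ1 : κ ≤ 1 := by
    by_contra hcon
    push Not at hcon
    have h1 : (2:ℝ) ^ m * (1 - κ) < 0 := mul_neg_of_pos_of_neg (by positivity) (by linarith)
    have : (0:ℝ) ≤ n := by positivity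
    linarith
  obtain ⟨e, he1, he2⟩ := exists_between hκ
  obtain ⟨J0, hJ0sub, hJ0⟩ := Finset.exists_subset_card_eq
    (s := (Finset.univ : Finset ι)) (n := n + 3) (by rw [Finset.card_univ, hcard]; omega)
  obtain ⟨o, hoJ⟩ : J0.Nonempty := by rw [← Finset.card_pos]; omega
  set K := J0.erase o with hK
  have hKcard : K.card = n + 2 := by rw [hK, Finset.card_erase_of_mem hoJ, hJ0]; rfl
  have ho : o ∉ K := Finset.notMem_erase o J0
  have hins : insert o K = J0 := Finset.insert_erase hoJ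
  have hs0 : (1:ℝ) ≤ Fintype.card ι := by
    have : 1 ≤ Fintype.card ι := by omega
    exact_mod_cast this
  set E : ℝ := 4 ^ (n + 2) * Fintype.card ι + 1 with hE
  have hE1 : 1 ≤ E := by
    rw [hE]
    have : (0:ℝ) ≤ 4 ^ (n + 2) * Fintype.card ι := by positivity
    linarith
  have hEge : 2 ^ (n + 2) * ((n : ℝ) + 3) ≤ E := by
    have h5 : (2:ℝ) ^ (n + 2) ≤ 4 ^ (n + 2) := pow_le_pow_left₀ (by norm_num) (by norm_num) _
    have h6 : (n : ℝ) + 3 ≤ Fintype.card ι := by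
      rw [hcard]; push_cast
      have : (0:ℝ) ≤ m := by positivity
      linarith
    have h7 : 2 ^ (n + 2) * ((n : ℝ) + 3) ≤ 4 ^ (n + 2) * Fintype.card ι :=
      mul_le_mul h5 h6 (by positivity) (by positivity)
    linarith
  set η0 : ℝ := min 1 (η / (2 * (4 * (Fintype.card ι : ℝ)) ^ κ)) with hη0
  have hη0pos : 0 < η0 := lt_min one_pos (by positivity)
  have hη0le : η0 ≤ 1 := min_le_left _ _
  have hη0η : 2 * η0 * (4 * (Fintype.card ι : ℝ)) ^ κ ≤ η := by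
    have h1 : η0 ≤ η / (2 * (4 * (Fintype.card ι : ℝ)) ^ κ) := min_le_right _ _
    rw [le_div_iff₀ (by positivity)] at h1
    linarith
  have hkap : 0 < kap n E := by unfold kap; positivity
  set M : ℕ → ℕ := fun j => ⌈(E + 2) * (PP j : ℝ)⌉₊ with hM
  have hM1 : ∀ j, (E + 2) * (PP j : ℝ) ≤ M j := fun j => Nat.le_ceil _
  have hM2 : ∀ j, 2 * PP j ≤ M j := by
    intro j
    have h1 := hM1 j
    have hP := PP_pos' j
    have : ((2 * PP j : ℕ) : ℝ) ≤ M j := by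
      push_cast
      nlinarith
    exact_mod_cast this
  have hstart : ∀ e < 1 - κ, ClC n E (fun j => η0 * (PP j : ℝ) ^ (-κ))
      (fun j => η0 * (PP j : ℝ) ^ (-κ) / (8 * kap n E) * (PP j : ℝ)) M J0 e := by
    intro e he
    rw [← hins]
    exact ClC_start n hKcard ho hEge hκ0 hη0pos hη0le he hM1
  set T := J0ᶜ with hT
  have hTcard : T.card = m := by
    rw [hT, Finset.card_compl, hcard, hJ0]; omega
  have hchain := ClC_chain n (fun j => by positivity) hM2 hstart T disjoint_compl_right e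
    (by rw [hTcard]; exact he2)
  rw [hT, Finset.union_compl, ← hT, hTcard] at hchain
  set c1 : ℝ := η0 / (8 * kap n E) / 32 ^ m with hc1
  have hw : (fun j => η0 * (PP j : ℝ) ^ (-κ) / (8 * kap n E) * (PP j : ℝ) * ((PP j : ℝ) / 32) ^ m)
      = fun j => c1 * (PP j : ℝ) ^ ((m : ℝ) + 1 - κ) := by
    funext j
    have hP := PP_pos' j
    have e1 : (PP j : ℝ) ^ ((m : ℝ) + 1 - κ) = (PP j : ℝ) ^ m * (PP j : ℝ) * (PP j : ℝ) ^ (-κ) := by
      rw [sub_eq_add_neg, Real.rpow_add hP, Real.rpow_add hP, Real.rpow_one, Real.rpow_natCast]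
    rw [e1, hc1, div_pow]
    field_simp
  rw [hw] at hchain
  have hsm : ∀ᶠ j in atTop, (PP j : ℝ) ^ ((n : ℝ) + 2 + κ - e) < η0 := by
    have h1 : Tendsto (fun x : ℝ => x ^ ((n : ℝ) + 2 + κ - e)) atTop (nhds 0) := by
      have := tendsto_rpow_neg_atTop (y := e - ((n : ℝ) + 2 + κ)) (by linarith)
      refine this.congr fun x => ?_
      congr 1
      ring
    exact (h1.comp PP_tendsto).eventually (gt_mem_nhds hη0pos)
  filter_upwards [hchain] with θ hθ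
  refine repC_of_small n m hκ0 hκ1 hη0pos hη0le (by positivity : 0 < c1) hcard hη0η (M := M) ?_
  filter_upwards [hθ, hsm] with j h5 h6
  refine h5.trans_lt ((ENNReal.ofReal_lt_ofReal_iff (by
    have := Real.rpow_pos_of_pos (PP_pos' j) (-κ)
    positivity)).2 ?_)
  have hP := PP_pos' j
  have e1 : (PP j : ℝ) ^ ((n : ℝ) + 2 - e) = (PP j : ℝ) ^ ((n : ℝ) + 2 + κ - e) * (PP j : ℝ) ^ (-κ) := by
    rw [← Real.rpow_add hP]
    congr 1
    ring
  rw [e1]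
  exact mul_lt_mul_of_pos_right h6 (Real.rpow_pos_of_pos hP _)

end Pool.Agent.X25.CT
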