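import Pool.Agent.X25.CT.Stage

/-! Adding one variable squares the exceptional proportion, counting version. -/

set_option autoImplicit false

namespace Pool.Agent.X25.CT

open Finset MeasureTheory Pool.Agent.X100.WS

open Classical in
/-- The set of `t` almost all of whose translates by shifted powers lie in `E`. -/
def NextC (E : Set ℝ) (n P : ℕ) (s : ℝ) : Set ℝ :=
  {t | 32 * ((Finset.Ico P (2 * P)).filter fun x : ℕ => t - ((x : ℝ) + s) ^ (n + 2) ∉ E).card ≤ P}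

lemma count_pairs (f : ℕ → Prop) [DecidablePred f] {P Q : ℕ} (hP : P = 4 * Q)
    (h : 32 * ((Finset.Ico P (2 * P)).filter fun x => ¬ f x).card ≤ P) :
    Q * Q ≤ 2 * ((Finset.Ico Q (2 * Q) ×ˢ Finset.Ico P (P + Q)).filter
      fun p => f p.2 ∧ f (p.2 + p.1)).card := by
  set N := ((Finset.Ico P (2 * P)).filter fun x => ¬ f x).card with hN
  set U := Finset.Ico Q (2 * Q) ×ˢ Finset.Ico P (P + Q) with hU
  have hUc : U.card = Q * Q := by
    rw [hU, Finset.card_product, Nat.card_Ico, Nat.card_Ico]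
    congr 1 <;> omega
  have h1 : (U.filter fun p => ¬ f p.2).card ≤ Q * N := by
    calc _ ≤ (Finset.Ico Q (2 * Q) ×ˢ ((Finset.Ico P (2 * P)).filter fun x => ¬ f x)).card := by
          refine Finset.card_le_card fun p hp => ?_
          rw [Finset.mem_filter, hU, Finset.mem_product, Finset.mem_Ico, Finset.mem_Ico] at hp
          rw [Finset.mem_product, Finset.mem_filter, Finset.mem_Ico, Finset.mem_Ico]
          exact ⟨hp.1.1, ⟨by omega, by omega⟩, hp.2⟩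
      _ = _ := by
          rw [Finset.card_product, Nat.card_Ico, hN]
          congr 1
          omega
  have h2 : (U.filter fun p => ¬ f (p.2 + p.1)).card ≤ Q * N := by
    calc _ ≤ (Finset.Ico Q (2 * Q) ×ˢ ((Finset.Ico P (2 * P)).filter fun x => ¬ f x)).card := by
          refine Finset.card_le_card_of_injOn (fun p => (p.1, p.2 + p.1)) ?_ ?_
          · intro p hp
            rw [Finset.mem_coe, Finset.mem_filter, hU, Finset.mem_product, Finset.mem_Ico,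
              Finset.mem_Ico] at hp
            rw [Finset.mem_coe, Finset.mem_product, Finset.mem_filter, Finset.mem_Ico, Finset.mem_Ico]
            dsimp only
            exact ⟨hp.1.1, ⟨by omega, by omega⟩, hp.2⟩
          · rintro ⟨a, b⟩ _ ⟨a', b'⟩ _ heq
            simp only [Prod.mk.injEq] at heq ⊢
            omega
      _ = _ := by
          rw [Finset.card_product, Nat.card_Ico, hN]
          congr 1
          omega
  have h3 : U.card ≤ (U.filter fun p => f p.2 ∧ f (p.2 + p.1)).card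
      + (U.filter fun p => ¬ f p.2).card + (U.filter fun p => ¬ f (p.2 + p.1)).card := by
    calc U.card ≤ ((U.filter fun p => f p.2 ∧ f (p.2 + p.1)) ∪ (U.filter fun p => ¬ f p.2)
          ∪ (U.filter fun p => ¬ f (p.2 + p.1))).card := by
          refine Finset.card_le_card fun p hp => ?_
          simp only [Finset.mem_union, Finset.mem_filter]
          by_cases ha : f p.2 <;> by_cases hb : f (p.2 + p.1) <;> simp [ha, hb, hp]
      _ ≤ _ := (Finset.card_union_le _ _).trans (Nat.add_le_add_right (Finset.card_union_le _ _) _)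
  have h4 : 8 * N ≤ Q := by omega
  have h5 : 8 * (Q * N) ≤ Q * Q := by
    calc 8 * (Q * N) = Q * (8 * N) := by ring
      _ ≤ Q * Q := Nat.mul_le_mul_left _ h4
  omega

lemma pairs_ge {E : Set ℝ} (n : ℕ) {P Q : ℕ} (hP : P = 4 * Q) {s t : ℝ}
    (ht : t ∈ NextC E n P s) :
    (Q : ENNReal) * (Q : ENNReal) ≤ 2 * ∑ h ∈ Finset.Ico Q (2 * Q), ∑ x ∈ Finset.Ico P (P + Q),
      E.indicator (1 : ℝ → ENNReal) (t - ((x : ℝ) + s) ^ (n + 2))
        * E.indicator (1 : ℝ → ENNReal) (t - (((x : ℝ) + s) + (h : ℝ)) ^ (n + 2)) := by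
  classical
  have h1 := count_pairs (fun x : ℕ => t - ((x : ℝ) + s) ^ (n + 2) ∈ E) hP ht
  rw [← Finset.sum_product' (f := fun (h x : ℕ) =>
      E.indicator (1 : ℝ → ENNReal) (t - ((x : ℝ) + s) ^ (n + 2))
        * E.indicator (1 : ℝ → ENNReal) (t - (((x : ℝ) + s) + (h : ℝ)) ^ (n + 2)))]
  have e : ∀ p : ℕ × ℕ, E.indicator (1 : ℝ → ENNReal) (t - ((p.2 : ℝ) + s) ^ (n + 2))
        * E.indicator (1 : ℝ → ENNReal) (t - (((p.2 : ℝ) + s) + (p.1 : ℝ)) ^ (n + 2))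
      = if (t - ((p.2 : ℝ) + s) ^ (n + 2) ∈ E ∧ t - (((p.2 + p.1 : ℕ) : ℝ) + s) ^ (n + 2) ∈ E)
        then 1 else 0 := by
    intro p
    have e2 : (((p.2 + p.1 : ℕ) : ℝ) + s) = ((p.2 : ℝ) + s) + (p.1 : ℝ) := by push_cast; ring
    rw [e2]
    by_cases ha : t - ((p.2 : ℝ) + s) ^ (n + 2) ∈ E <;>
      by_cases hb : t - (((p.2 : ℝ) + s) + (p.1 : ℝ)) ^ (n + 2) ∈ E <;>
      simp [Set.indicator, ha, hb]
  simp_rw [e]
  rw [← Finset.sum_filter, Finset.sum_const, nsmul_eq_mul, mul_one]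
  exact_mod_cast h1

lemma NextC_measurableSet {E : Set ℝ} (hE : MeasurableSet E) (n P : ℕ) :
    MeasurableSet {p : ℝ × ℝ | p.2 ∈ NextC E n P p.1} := by
  classical
  have e : {p : ℝ × ℝ | p.2 ∈ NextC E n P p.1}
      = {p : ℝ × ℝ | ∑ x ∈ Finset.Ico P (2 * P),
        ((fun p : ℝ × ℝ => p.2 - ((x : ℝ) + p.1) ^ (n + 2)) ⁻¹' Eᶜ).indicator (1 : ℝ × ℝ → ℝ) p
          ≤ P / 32} := by
    ext p
    simp only [NextC, Set.mem_setOf_eq]
    have e2 : ∑ x ∈ Finset.Ico P (2 * P),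
        ((fun p : ℝ × ℝ => p.2 - ((x : ℝ) + p.1) ^ (n + 2)) ⁻¹' Eᶜ).indicator (1 : ℝ × ℝ → ℝ) p
        = (((Finset.Ico P (2 * P)).filter fun x : ℕ => p.2 - ((x : ℝ) + p.1) ^ (n + 2) ∉ E).card : ℝ) := by
      rw [Finset.card_filter]
      push_cast
      refine Finset.sum_congr rfl fun x _ => ?_
      by_cases h : p.2 - ((x : ℝ) + p.1) ^ (n + 2) ∈ E <;> simp [Set.indicator, h]
    rw [e2, le_div_iff₀ (by norm_num)]
    constructor
    · intro h
      have : ((32 * ((Finset.Ico P (2 * P)).filter fun x : ℕ =>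
        p.2 - ((x : ℝ) + p.1) ^ (n + 2) ∉ E).card : ℕ) : ℝ) ≤ (P : ℝ) := by exact_mod_cast h
      push_cast at this
      linarith
    · intro h
      have : ((32 * ((Finset.Ico P (2 * P)).filter fun x : ℕ =>
        p.2 - ((x : ℝ) + p.1) ^ (n + 2) ∉ E).card : ℕ) : ℝ) ≤ (P : ℝ) := by
        push_cast
        linarith
      exact_mod_cast this
  rw [e]
  refine measurableSet_le ?_ measurable_const
  refine Finset.measurable_sum _ fun x _ => ?_
  refine measurable_one.indicator ?_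
  have hm : Measurable fun p : ℝ × ℝ => p.2 - ((x : ℝ) + p.1) ^ (n + 2) := by fun_prop
  exact hm hE.compl

lemma NextC_measurable {E : Set ℝ} (hE : MeasurableSet E) (n P : ℕ) :
    Measurable fun s : ℝ => volume (NextC E n P s) :=
  measurable_measure_prodMk_left (NextC_measurableSet hE n P)

lemma NextC_slice {E : Set ℝ} (hE : MeasurableSet E) (n P : ℕ) (s : ℝ) :
    MeasurableSet (NextC E n P s) :=
  measurable_prodMk_left (NextC_measurableSet hE n P)

lemma NextC_vol {E : Set ℝ} (hE : MeasurableSet E) (n : ℕ) {P Q : ℕ} (hP : P = 4 * Q) (s : ℝ) :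
    (Q : ENNReal) * (Q : ENNReal) * volume (NextC E n P s)
      ≤ 2 * ∑ h ∈ Finset.Ico Q (2 * Q), ∑ x ∈ Finset.Ico P (P + Q),
        RR E ((((x : ℝ) + s) + (h : ℝ)) ^ (n + 2) - ((x : ℝ) + s) ^ (n + 2)) := by
  have hm1 : Measurable (E.indicator (1 : ℝ → ENNReal)) := measurable_one.indicator hE
  have hm : ∀ h x : ℕ, Measurable fun t : ℝ =>
      E.indicator (1 : ℝ → ENNReal) (t - ((x : ℝ) + s) ^ (n + 2))
        * E.indicator (1 : ℝ → ENNReal) (t - (((x : ℝ) + s) + (h : ℝ)) ^ (n + 2)) := fun h x =>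
    (hm1.comp (measurable_id.sub_const _)).mul (hm1.comp (measurable_id.sub_const _))
  have e1 : ∀ h x : ℕ, RR E ((((x : ℝ) + s) + (h : ℝ)) ^ (n + 2) - ((x : ℝ) + s) ^ (n + 2))
      = ∫⁻ t, E.indicator (1 : ℝ → ENNReal) (t - ((x : ℝ) + s) ^ (n + 2))
        * E.indicator (1 : ℝ → ENNReal) (t - (((x : ℝ) + s) + (h : ℝ)) ^ (n + 2)) := by
    intro h x
    unfold RR
    rw [← lintegral_sub_right_eq_self (fun t => E.indicator (1 : ℝ → ENNReal) t
      * E.indicator 1 (t - ((((x : ℝ) + s) + (h : ℝ)) ^ (n + 2) - ((x : ℝ) + s) ^ (n + 2))))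
      (((x : ℝ) + s) ^ (n + 2))]
    refine lintegral_congr fun t => ?_
    congr 2
    ring
  simp_rw [e1]
  have e2 : ∑ h ∈ Finset.Ico Q (2 * Q), ∑ x ∈ Finset.Ico P (P + Q),
      ∫⁻ t, E.indicator (1 : ℝ → ENNReal) (t - ((x : ℝ) + s) ^ (n + 2))
        * E.indicator (1 : ℝ → ENNReal) (t - (((x : ℝ) + s) + (h : ℝ)) ^ (n + 2))
      = ∫⁻ t, ∑ h ∈ Finset.Ico Q (2 * Q), ∑ x ∈ Finset.Ico P (P + Q),
        E.indicator (1 : ℝ → ENNReal) (t - ((x : ℝ) + s) ^ (n + 2))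
        * E.indicator (1 : ℝ → ENNReal) (t - (((x : ℝ) + s) + (h : ℝ)) ^ (n + 2)) := by
    rw [lintegral_finsetSum _ fun h _ => Finset.measurable_sum _ fun x _ => hm h x]
    refine Finset.sum_congr rfl fun h _ => ?_
    rw [lintegral_finsetSum _ fun x _ => hm h x]
  rw [e2, ← lintegral_const_mul 2 (Finset.measurable_sum _ fun h _ =>
    Finset.measurable_sum _ fun x _ => hm h x)]
  have hS := NextC_slice hE n P s
  rw [← setLIntegral_const]
  calc ∫⁻ _ in NextC E n P s, (Q : ENNReal) * (Q : ENNReal)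
      ≤ ∫⁻ t in NextC E n P s, 2 * ∑ h ∈ Finset.Ico Q (2 * Q), ∑ x ∈ Finset.Ico P (P + Q),
        E.indicator (1 : ℝ → ENNReal) (t - ((x : ℝ) + s) ^ (n + 2))
        * E.indicator (1 : ℝ → ENNReal) (t - (((x : ℝ) + s) + (h : ℝ)) ^ (n + 2)) :=
        setLIntegral_mono' hS fun t ht => pairs_ge n hP ht
    _ ≤ _ := setLIntegral_le_lintegral _ _

theorem squaringC (n : ℕ) {E : Set ℝ} (hE : MeasurableSet E) {P Q : ℕ} (hQ : 0 < Q)
    (hP : P = 4 * Q) :
    ENNReal.ofReal ((Q:ℝ) ^ 2 * (P : ℝ) ^ n) * ∫⁻ s in Set.Icc (0:ℝ) 1, volume (NextC E n P s)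
      ≤ 2 * volume E ^ 2 := by
  have hP0 : (0:ℝ) < P := by
    have : 0 < P := by omega
    exact_mod_cast this
  have hQ0 : (0:ℝ) < Q := by exact_mod_cast hQ
  have hR := RR_meas hE
  have h2 : (Q : ENNReal) * (Q : ENNReal) * ∫⁻ s in Set.Icc (0:ℝ) 1, volume (NextC E n P s)
      ≤ 2 * ∑ h ∈ Finset.Ico Q (2 * Q), ∑ x ∈ Finset.Ico P (P + Q),
        ∫⁻ s in Set.Ico (0:ℝ) 1, RR E ((((x : ℝ) + s) + (h : ℝ)) ^ (n + 2) - ((x : ℝ) + s) ^ (n + 2)) := by
    have hIcc : ∫⁻ s in Set.Icc (0:ℝ) 1, volume (NextC E n P s)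
        = ∫⁻ s in Set.Ico (0:ℝ) 1, volume (NextC E n P s) :=
      setLIntegral_congr Ico_ae_eq_Icc.symm
    have hm : ∀ h x : ℕ, Measurable fun s : ℝ =>
        RR E ((((x : ℝ) + s) + (h : ℝ)) ^ (n + 2) - ((x : ℝ) + s) ^ (n + 2)) := fun h x =>
      hR.comp (by fun_prop)
    rw [hIcc, ← lintegral_const_mul _ (NextC_measurable hE n P)]
    refine (lintegral_mono fun s => NextC_vol hE n hP s).trans (le_of_eq ?_)
    rw [lintegral_const_mul 2 (Finset.measurable_sum _ fun h _ =>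
      Finset.measurable_sum _ fun x _ => hm h x)]
    congr 1
    rw [lintegral_finsetSum _ fun h _ => Finset.measurable_sum _ fun x _ => hm h x]
    refine Finset.sum_congr rfl fun h _ => ?_
    rw [lintegral_finsetSum _ fun x _ => hm h x]
  have h5 : ∀ h ∈ Finset.Ico Q (2 * Q), ENNReal.ofReal ((Q:ℝ) * (P:ℝ) ^ n) *
      ∑ x ∈ Finset.Ico P (P + Q),
        ∫⁻ s in Set.Ico (0:ℝ) 1, RR E ((((x : ℝ) + s) + (h : ℝ)) ^ (n + 2) - ((x : ℝ) + s) ^ (n + 2))
      ≤ volume E ^ 2 := by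
    intro h hh
    rw [Finset.mem_Ico] at hh
    rw [unfold_sum (fun u => RR E ((u + (h : ℝ)) ^ (n + 2) - u ^ (n + 2))) P Q, ← RR_total hE]
    refine le_trans ?_ (change_var n (h := h) (P := P) (Q := Q) hP0 (by
      have : 0 < h := by omega
      exact_mod_cast this) (RR E))
    gcongr
    exact_mod_cast hh.1
  have h6 : ENNReal.ofReal ((Q:ℝ) * (P:ℝ) ^ n) * ((Q : ENNReal) * (Q : ENNReal) *
      ∫⁻ s in Set.Icc (0:ℝ) 1, volume (NextC E n P s)) ≤ (Q : ENNReal) * (2 * volume E ^ 2) := by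
    calc _ ≤ ENNReal.ofReal ((Q:ℝ) * (P:ℝ) ^ n) * (2 * ∑ h ∈ Finset.Ico Q (2 * Q),
          ∑ x ∈ Finset.Ico P (P + Q), ∫⁻ s in Set.Ico (0:ℝ) 1,
          RR E ((((x : ℝ) + s) + (h : ℝ)) ^ (n + 2) - ((x : ℝ) + s) ^ (n + 2))) := by gcongr
      _ = 2 * ∑ h ∈ Finset.Ico Q (2 * Q), ENNReal.ofReal ((Q:ℝ) * (P:ℝ) ^ n) *
        ∑ x ∈ Finset.Ico P (P + Q), ∫⁻ s in Set.Ico (0:ℝ) 1,
          RR E ((((x : ℝ) + s) + (h : ℝ)) ^ (n + 2) - ((x : ℝ) + s) ^ (n + 2)) := by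
          rw [mul_left_comm, Finset.mul_sum]
      _ ≤ 2 * ∑ h ∈ Finset.Ico Q (2 * Q), volume E ^ 2 := by
          gcongr with h hh
          exact h5 h hh
      _ = _ := by
          rw [Finset.sum_const, Nat.card_Ico, show 2 * Q - Q = Q by omega, nsmul_eq_mul]
          ring
  have hQE : (Q : ENNReal) ≠ 0 := by exact_mod_cast hQ.ne'
  have hQT : (Q : ENNReal) ≠ ⊤ := ENNReal.natCast_ne_top Q
  rw [← ENNReal.mul_le_mul_iff_right hQE hQT]
  refine le_trans (le_of_eq ?_) h6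
  have e1 : ENNReal.ofReal ((Q:ℝ) ^ 2 * (P : ℝ) ^ n)
      = ENNReal.ofReal ((Q:ℝ) * (P:ℝ) ^ n) * (Q : ENNReal) := by
    rw [← ENNReal.ofReal_natCast Q, ← ENNReal.ofReal_mul (by positivity)]
    congr 1
    ring
  rw [e1]
  ring

end Pool.Agent.X25.CT
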