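import Pool.Agent.X25.CT.Base

/-! The first stage with counts. -/

set_option autoImplicit false

namespace Pool.Agent.X25.CT

open Finset MeasureTheory intervalIntegral Pool.Agent.X100.WS

variable {ι : Type*} [Fintype ι] [DecidableEq ι]

/-- The set of real numbers in a window with few representations. -/
def BadC (J : Finset ι) (n P M : ℕ) (r T1 T2 w : ℝ) (θ : ι → ℝ) : Set ℝ :=
  {t | t ∈ Set.Icc T1 T2 ∧ ((rp J n P M r θ t).card : ℝ) < w}

theorem stageC (n : ℕ) {K : Finset ι} (hK : K.card = n + 2) {o : ι} (ho : o ∉ K)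
    {P M : ℕ} (hP : 2 ≤ P)
    {θ : ι → ℝ} (hθ : ∀ i ∈ K, θ i ∈ Set.Icc (0:ℝ) 1) {T1 T2 B r G L : ℝ} (hT : T1 ≤ T2)
    (hB : 1 ≤ B) (hr : 0 < r) (hr1 : r ≤ 1) (hL : 0 < L) (hM : (B + 2) * P ≤ M)
    (h1 : ∀ x ∈ box K P, (2 * (P:ℝ)) ^ (n + 2) ≤ T1 - F K (n + 2) x θ)
    (h3 : ∀ x ∈ box K P, T2 - F K (n + 2) x θ ≤ (B * P) ^ (n + 2))
    (hG : CC K n P r θ ≤ G * (P : ℝ) ^ (n + 2)) :
    (volume.restrict (Set.Icc (0:ℝ) 1)).real
      {s | s ∈ Set.Icc (0:ℝ) 1 ∧
        L ≤ volume.real (BadC (insert o K) n P M r T1 T2 (r / (8 * kap n B) * P) (Function.update θ o s))}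
      ≤ 4 * (C3 n B * (P : ℝ) ^ (n + 1) * (G / r + (1 + Real.log (NN n P))) / L) := by
  have hP0 : 0 < P := by omega
  have hP0' : (0:ℝ) < P := by exact_mod_cast hP0
  have hP2 : (2:ℝ) ≤ P := by exact_mod_cast hP
  have hB0 : 0 < B := by linarith
  have hkap : 0 < kap n B := by unfold kap; positivity
  have hkap1 : 1 ≤ kap n B * (P:ℝ) ^ (n + 1) := by
    have h4 : (1:ℝ) ≤ (2 * B) ^ (n + 1) := one_le_pow₀ (by linarith)
    have h5 : (1:ℝ) ≤ (P:ℝ) ^ (n + 1) := one_le_pow₀ (by linarith)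
    have h6 : (1:ℝ) ≤ n + 2 := by
      have : (0:ℝ) ≤ n := by positivity
      linarith
    unfold kap
    have h7 : (1:ℝ) ≤ ((n:ℝ) + 2) * (2 * B) ^ (n + 1) := by nlinarith
    nlinarith
  have hlog : 0 ≤ Real.log (NN n P) := Real.log_natCast_nonneg _
  set d := r / (kap n B * (P:ℝ) ^ (n + 1)) with hd
  have hd0 : 0 < d := by positivity
  have hd1 : d ≤ 1 := by
    rw [hd, div_le_one (by positivity)]
    linarith
  have hmd := mass_ge hd0 hd1
  have hm0 : 0 < mass d := lt_of_lt_of_le (by positivity) hmd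
  have hne : (box K P).Nonempty := by
    rw [← Finset.card_pos, card_box]
    positivity
  set c : (ι → ℕ) → ℝ := fun x => F K (n + 2) x θ with hc
  have hV := var_bound n hK hP0 hθ hT hB hr hr1 h1 h3
  rw [← hd] at hV
  have htot := total_var n d (box K P) c hT
  have hch := cheb_half n hd0 hd1 hne c hT hL (htot.le.trans hV)
  have hsub : {s | s ∈ Set.Icc (0:ℝ) 1 ∧
        L ≤ volume.real (BadC (insert o K) n P M r T1 T2 (r / (8 * kap n B) * P) (Function.update θ o s))}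
      ⊆ {s | L ≤ volume.real {t | t ∈ Set.Icc T1 T2 ∧
        cnt n d (box K P) c t s < (box K P).card * mass d / 2}} := by
    rintro s ⟨hs, hs2⟩
    refine le_trans hs2 ?_
    refine measureReal_mono ?_ (measure_ne_top_of_subset (fun t ht => ht.1)
      (measure_Icc_lt_top (a := T1) (b := T2)).ne)
    intro t ht
    refine ⟨ht.1, ?_⟩
    have h5 := card_ge n ho hP hB hr hr1 hM h1 h3 ht.1 hs
    have h6 := ht.2
    refine h5.trans_lt (h6.trans_le ?_)
    rw [card_box, hK]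
    push_cast
    have h7 : r / (8 * kap n B) * P = (P:ℝ) ^ (n + 2) * (d / 4) / 2 := by
      rw [hd]
      field_simp
      ring
    rw [h7]
    have h8 : (P:ℝ) ^ (n + 2) * (d / 4) ≤ (P:ℝ) ^ (n + 2) * mass d :=
      mul_le_mul_of_nonneg_left hmd (by positivity)
    linarith
  have hmono := measureReal_mono (μ := volume.restrict (Set.Icc (0:ℝ) 1)) hsub
  refine hmono.trans (hch.trans ?_)
  refine mul_le_mul_of_nonneg_left ?_ (by norm_num)
  rw [card_box, hK]
  push_cast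
  have hTT : T2 - T1 ≤ (B * P) ^ (n + 2) := by
    obtain ⟨x, hx⟩ := hne
    have h5 := h1 x hx
    have h6 := h3 x hx
    have : (0:ℝ) ≤ (2 * (P:ℝ)) ^ (n + 2) := by positivity
    linarith
  have hCC0 : 0 ≤ CC K n P r θ := by
    unfold CC
    refine Finset.sum_nonneg fun x _ => Finset.sum_nonneg fun y _ => ?_
    split_ifs <;> norm_num
  set lg := 1 + Real.log (NN n P) with hlg
  have hlg0 : 0 < lg := by linarith
  have hG0 : 0 ≤ G * (P : ℝ) ^ (n + 2) := hCC0.trans hG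
  have e1 : 1 / mass d ≤ 4 * kap n B * (P:ℝ) ^ (n + 1) / r := by
    rw [div_le_div_iff₀ hm0 hr]
    have : d / 4 * (4 * kap n B * (P:ℝ) ^ (n + 1)) = r := by
      rw [hd]
      field_simp
    nlinarith [mul_le_mul_of_nonneg_right hmd
      (by positivity : 0 ≤ 4 * kap n B * (P:ℝ) ^ (n + 1))]
  have e2 : mass d * (T2 - T1) * CC K n P r θ ≤ mass d * (B * P) ^ (n + 2) * (G * (P : ℝ) ^ (n + 2)) := by
    apply mul_le_mul _ hG hCC0 (by positivity)
    exact mul_le_mul_of_nonneg_left hTT hm0.le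
  have e3 : (mass d * (B * P) ^ (n + 2) * (G * (P : ℝ) ^ (n + 2))) / (((P:ℝ) ^ (n + 2) * mass d) ^ 2 * L)
      = (B ^ (n + 2) * G) * (1 / mass d) / L := by
    rw [mul_pow B]
    field_simp
  have e4 : (4 * mass d ^ 2 * (((n:ℝ) + 2) ^ 2 * (B * P) ^ (2 * n + 3)) * ((P : ℝ) ^ (n + 2) * (4 * lg)))
      / (((P:ℝ) ^ (n + 2) * mass d) ^ 2 * L)
      = 16 * (((n:ℝ) + 2) ^ 2 * B ^ (2 * n + 3)) * (P:ℝ) ^ (n + 1) * lg / L := by
    rw [mul_pow B, show 2 * n + 3 = (n + 2) + (n + 1) by ring, pow_add (P:ℝ)]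
    field_simp
    ring
  have hGnn : 0 ≤ G := by
    by_contra hcon
    push Not at hcon
    have : G * (P : ℝ) ^ (n + 2) < 0 := mul_neg_of_neg_of_pos hcon (by positivity)
    linarith
  calc _ ≤ (mass d * (B * P) ^ (n + 2) * (G * (P : ℝ) ^ (n + 2))
        + 4 * mass d ^ 2 * ((n + 2) ^ 2 * (B * P) ^ (2 * n + 3)) * ((P : ℝ) ^ (n + 2) * (4 * lg)))
        / (((P:ℝ) ^ (n + 2) * mass d) ^ 2 * L) := by
        apply div_le_div_of_nonneg_right _ (by positivity)
        linarith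
    _ = (B ^ (n + 2) * G) * (1 / mass d) / L
        + 16 * (((n:ℝ) + 2) ^ 2 * B ^ (2 * n + 3)) * (P:ℝ) ^ (n + 1) * lg / L := by
        rw [add_div, e3, e4]
    _ ≤ (B ^ (n + 2) * G) * (4 * kap n B * (P:ℝ) ^ (n + 1) / r) / L
        + 16 * (((n:ℝ) + 2) ^ 2 * B ^ (2 * n + 3)) * (P:ℝ) ^ (n + 1) * lg / L := by
        apply add_le_add _ le_rfl
        apply div_le_div_of_nonneg_right _ hL.le
        exact mul_le_mul_of_nonneg_left e1 (by positivity)
    _ = ((4 * kap n B * B ^ (n + 2)) * (G / r) + (16 * ((n + 2) ^ 2 * B ^ (2 * n + 3))) * lg)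
        * (P:ℝ) ^ (n + 1) / L := by
        field_simp
    _ ≤ (C3 n B * (G / r) + C3 n B * lg) * (P:ℝ) ^ (n + 1) / L := by
        apply div_le_div_of_nonneg_right _ hL.le
        apply mul_le_mul_of_nonneg_right _ (by positivity)
        apply add_le_add
        · apply mul_le_mul_of_nonneg_right _ (by positivity)
          unfold C3
          have : 0 ≤ 16 * (((n:ℝ) + 2) ^ 2 * B ^ (2 * n + 3)) := by positivity
          linarith
        · apply mul_le_mul_of_nonneg_right _ hlg0.le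
          unfold C3
          have : 0 ≤ 4 * kap n B * B ^ (n + 2) := by positivity
          linarith
    _ = _ := by ring

end Pool.Agent.X25.CT
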