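import Pool.Agent.X25.CT.Step

/-! The first stage, almost surely, counting version. -/

set_option autoImplicit false

namespace Pool.Agent.X25.CT

open Finset MeasureTheory Filter Pool.Agent.X100.WS

variable {ι : Type*} [Fintype ι] [DecidableEq ι]

lemma CC_mono (K : Finset ι) (n P : ℕ) {r r' : ℝ} (h : r ≤ r') (θ : ι → ℝ) :
    CC K n P r θ ≤ CC K n P r' θ := by
  unfold CC
  refine Finset.sum_le_sum fun x _ => Finset.sum_le_sum fun y _ => ?_
  split_ifs with h1 h2
  · exact le_rfl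
  · exact absurd (h1.trans h) h2
  · exact zero_le_one
  · exact le_rfl

theorem ClC_start (n : ℕ) {K : Finset ι} (hK : K.card = n + 2) {o : ι} (ho : o ∉ K) {E κ η e : ℝ}
    (hE : 2 ^ (n + 2) * ((n : ℝ) + 3) ≤ E) (hκ : 0 ≤ κ) (hη : 0 < η) (hη1 : η ≤ 1)
    (he : e < 1 - κ) {M : ℕ → ℕ} (hM : ∀ j, (E + 2) * (PP j : ℝ) ≤ M j) :
    ClC n E (fun j => η * (PP j : ℝ) ^ (-κ))
      (fun j => η * (PP j : ℝ) ^ (-κ) / (8 * kap n E) * (PP j : ℝ)) M (insert o K) e := by
  set r : ℕ → ℝ := fun j => η * (PP j : ℝ) ^ (-κ) with hrdef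
  set w : ℕ → ℝ := fun j => η * (PP j : ℝ) ^ (-κ) / (8 * kap n E) * (PP j : ℝ) with hwdef
  set ε : ℝ := (1 - κ - e) / 2 with hε
  have hε0 : 0 < ε := by rw [hε]; linarith
  have hE1 : 1 ≤ E := by
    refine le_trans ?_ hE
    have h1 : (1:ℝ) ≤ 2 ^ (n + 2) := one_le_pow₀ (by norm_num)
    have h2 : (0:ℝ) ≤ n := by positivity
    nlinarith
  have hC3 := C3_pos n hE1
  set A : ℕ → Set (ι → ℝ) := fun j => {θ | (∀ l, θ l ∈ Set.Icc (0:ℝ) 1) ∧
    CC K n (PP j) ((PP j : ℝ) ^ (-κ)) θ ≤ (PP j : ℝ) ^ ε * (PP j : ℝ) ^ (n + 2) ∧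
    ENNReal.ofReal ((PP j : ℝ) ^ ((n : ℝ) + 2 - e)) < volume (BadSC n E r w M (insert o K) j θ)} with hA
  have hAm : ∀ j, MeasurableSet (A j) := by
    intro j
    refine cube_meas.inter (MeasurableSet.inter ?_ ?_)
    · exact measurableSet_le (CC_meas _ _ _ _) measurable_const
    · exact measurableSet_lt measurable_const (BadC_vol_measurable _ _ _ _ _ _ _ _)
  have hbc := bc A (4 * C3 n E * (1 / η + 1)) (δ := ε) hε0 ?_
  · filter_upwards [close_ae n hK hκ hε0, hbc, ae_cube (ι := ι)] with θ h1 h2 h3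
    filter_upwards [h1, h2] with j h4 h5
    by_contra hcon
    push Not at hcon
    exact h5 ⟨h3, h4, hcon⟩
  · filter_upwards [PP_tendsto.eventually (log_small (1 + Real.log ((n + 2) * 2 ^ (n + 2))) 1
      (by linarith : 0 < ε + κ))] with j hj
    refine slice (hAm j) o fun θ => ?_
    set S : Set ℝ := {t | Function.update θ o t ∈ A j} with hS
    rcases S.eq_empty_or_nonempty with hemp | ⟨s0, hs0⟩
    · rw [hemp]; simp
    have hP := PP_pos' j
    have hr0' : 0 < (PP j : ℝ) ^ (-κ) := Real.rpow_pos_of_pos hP _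
    have hr0 : 0 < r j := by rw [hrdef]; positivity
    have hrle : r j ≤ (PP j : ℝ) ^ (-κ) := by
      rw [hrdef]
      exact mul_le_of_le_one_left hr0'.le hη1
    have hθ : ∀ i ∈ K, θ i ∈ Set.Icc (0:ℝ) 1 := by
      intro i hi
      have hi' : i ≠ o := fun h => ho (by rw [← h]; exact hi)
      have := hs0.1 i
      rwa [Function.update_of_ne hi'] at this
    have hCC : CC K n (PP j) (r j) θ ≤ (PP j : ℝ) ^ ε * (PP j : ℝ) ^ (n + 2) := by
      refine (CC_mono K n (PP j) hrle θ).trans ?_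
      have := hs0.2.1
      unfold CC at this ⊢
      simpa only [F_update_not ho] using this
    have hcard : (insert o K).card = n + 3 := by
      rw [Finset.card_insert_of_notMem ho, hK]
    have hL0 : 0 < (PP j : ℝ) ^ ((n : ℝ) + 2 - e) := Real.rpow_pos_of_pos hP _
    have hst := stageC n hK ho (PP_ge j) (M := M j) hθ (T1 := 2 ^ (n + 2) * ((n : ℝ) + 3) * (PP j : ℝ) ^ (n + 2))
      (T2 := E * (PP j : ℝ) ^ (n + 2)) (B := E) (r := r j) (G := (PP j : ℝ) ^ ε)
      (L := (PP j : ℝ) ^ ((n : ℝ) + 2 - e))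
      (mul_le_mul_of_nonneg_right hE (by positivity)) hE1 hr0 (hrle.trans (rr_le hκ j)) hL0 (hM j)
      (fun x hx => by
        have := (F_bounds n hK (fun i => mem_box (PP_pos j) hx i) hθ).2
        rw [mul_pow] at this ⊢
        nlinarith)
      (fun x hx => by
        have h1 := (F_bounds n hK (fun i => mem_box (PP_pos j) hx i) hθ).1
        have h2 : E ≤ E ^ (n + 2) := by
          calc E = E ^ 1 := (pow_one _).symm
            _ ≤ E ^ (n + 2) := pow_le_pow_right₀ hE1 (by omega)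
        have h3 : E * (PP j : ℝ) ^ (n + 2) ≤ E ^ (n + 2) * (PP j : ℝ) ^ (n + 2) :=
          mul_le_mul_of_nonneg_right h2 (by positivity)
        rw [mul_pow]
        linarith) hCC
    have hsub : S ⊆ {s | s ∈ Set.Icc (0:ℝ) 1 ∧ (PP j : ℝ) ^ ((n : ℝ) + 2 - e) ≤
        volume.real (BadC (insert o K) n (PP j) (M j) (r j)
          (2 ^ (n + 2) * ((n : ℝ) + 3) * (PP j : ℝ) ^ (n + 2))
          (E * (PP j : ℝ) ^ (n + 2)) (r j / (8 * kap n E) * (PP j : ℝ)) (Function.update θ o s))} := by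
      intro s hs
      have hs1 : s ∈ Set.Icc (0:ℝ) 1 := by
        have := hs.1 o
        rwa [Function.update_self] at this
      refine ⟨hs1, ?_⟩
      have h1 := hs.2.2
      unfold BadSC at h1
      rw [hcard] at h1
      push_cast at h1
      have hfin : volume (BadC (insert o K) n (PP j) (M j) (r j)
          (2 ^ (n + 2) * ((n : ℝ) + 3) * (PP j : ℝ) ^ (n + 2))
          (E * (PP j : ℝ) ^ (n + 2)) (r j / (8 * kap n E) * (PP j : ℝ)) (Function.update θ o s)) ≠ ⊤ :=
        measure_ne_top_of_subset (fun t ht => ht.1) measure_Icc_lt_top.ne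
      exact (ENNReal.ofReal_le_iff_le_toReal hfin).1 h1.le
    have hmono := measureReal_mono (μ := volume.restrict (Set.Icc (0:ℝ) 1)) hsub
    rw [← ofReal_measureReal (measure_ne_top _ _)]
    refine ENNReal.ofReal_le_ofReal (hmono.trans (hst.trans ?_))
    have hNN : 1 + Real.log (NN n (PP j)) ≤ (PP j : ℝ) ^ (ε + κ) := by
      refine le_trans (le_of_eq ?_) hj
      unfold NN
      push_cast
      rw [Real.log_mul (by positivity) hP.ne']
      ring
    have e1 : (PP j : ℝ) ^ ε / r j = 1 / η * (PP j : ℝ) ^ (ε + κ) := by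
      have : (PP j : ℝ) ^ ε / (PP j : ℝ) ^ (-κ) = (PP j : ℝ) ^ (ε + κ) := by
        rw [← Real.rpow_sub hP]; congr 1; ring
      rw [← this, hrdef]
      dsimp only
      field_simp
    rw [e1, ← mul_div_assoc, div_le_iff₀ hL0]
    have e2 : (PP j : ℝ) ^ (n + 1) = (PP j : ℝ) ^ ((n : ℝ) + 1) := by
      rw [← Real.rpow_natCast]; push_cast; rfl
    calc 4 * (C3 n E * (PP j : ℝ) ^ (n + 1) * (1 / η * (PP j : ℝ) ^ (ε + κ) + (1 + Real.log (NN n (PP j)))))
        ≤ 4 * (C3 n E * (PP j : ℝ) ^ (n + 1) * (1 / η * (PP j : ℝ) ^ (ε + κ) + (PP j : ℝ) ^ (ε + κ))) := by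
          gcongr
      _ = 4 * C3 n E * (1 / η + 1) * ((PP j : ℝ) ^ ((n : ℝ) + 1) * (PP j : ℝ) ^ (ε + κ)) := by
          rw [e2]; ring
      _ = 4 * C3 n E * (1 / η + 1) * ((PP j : ℝ) ^ (-ε) * (PP j : ℝ) ^ ((n : ℝ) + 2 - e)) := by
          rw [← Real.rpow_add hP, ← Real.rpow_add hP]
          congr 2
          rw [hε]
          ring
      _ = _ := by ring

lemma ClC_chain (n : ℕ) {J0 : Finset ι} {E : ℝ} {r w : ℕ → ℝ} {M : ℕ → ℕ} {κ : ℝ}
    (hw : ∀ j, 0 ≤ w j) (hM : ∀ j, 2 * PP j ≤ M j)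
    (h0 : ∀ e < 1 - κ, ClC n E r w M J0 e) (T : Finset ι) (hT : Disjoint J0 T) :
    ∀ e < 2 ^ T.card * (1 - κ),
      ClC n E r (fun j => w j * ((PP j : ℝ) / 32) ^ T.card) M (J0 ∪ T) e := by
  induction T using Finset.induction_on with
  | empty =>
    intro e he
    rw [Finset.union_empty]
    simpa using h0 e (by simpa using he)
  | insert i T hi ih =>
    intro e he
    rw [Finset.disjoint_insert_right] at hT
    rw [Finset.card_insert_of_notMem hi, pow_succ] at he
    have hmem : i ∉ J0 ∪ T := by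
      rw [Finset.mem_union]
      exact fun h => h.elim hT.1 hi
    rw [Finset.union_insert]
    have h1 := ih hT.2 ((e / 2 + 2 ^ T.card * (1 - κ)) / 2) (by linarith)
    have h2 := ClC_step n hmem (fun j => mul_nonneg (hw j) (by positivity)) hM
      (e' := e) (by linarith) h1
    have e3 : (fun j => w j * ((PP j : ℝ) / 32) ^ (insert i T).card)
        = fun j => w j * ((PP j : ℝ) / 32) ^ T.card * (PP j / 32) := by
      funext j
      rw [Finset.card_insert_of_notMem hi, pow_succ]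
      ring
    rw [e3]
    exact h2

end Pool.Agent.X25.CT
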