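import Pool.Agent.X25.CT.Sq

/-! Induction step, counting version. -/

set_option autoImplicit false

namespace Pool.Agent.X25.CT

open Finset MeasureTheory Filter Pool.Agent.X100.WS

variable {ι : Type*} [Fintype ι] [DecidableEq ι]

lemma rp_update {J : Finset ι} (n P M : ℕ) (r : ℝ) (θ : ι → ℝ) {i : ι} (hi : i ∉ J) (s t : ℝ) :
    rp J n P M r (Function.update θ i s) t = rp J n P M r θ t := by
  ext x
  rw [mem_rp, mem_rp, F_update_not hi]

lemma BadC_update {J : Finset ι} (n P M : ℕ) (r T1 T2 w : ℝ) (θ : ι → ℝ) {i : ι} (hi : i ∉ J)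
    (s : ℝ) : BadC J n P M r T1 T2 w (Function.update θ i s) = BadC J n P M r T1 T2 w θ := by
  unfold BadC
  ext t
  simp only [Set.mem_ofPred_eq, rp_update n P M r θ hi]

lemma BadC_measurable (J : Finset ι) (n P M : ℕ) (r T1 T2 w : ℝ) :
    MeasurableSet {p : (ι → ℝ) × ℝ | p.2 ∈ BadC J n P M r T1 T2 w p.1} := by
  classical
  have e : {p : (ι → ℝ) × ℝ | p.2 ∈ BadC J n P M r T1 T2 w p.1}
      = (Prod.snd ⁻¹' (Set.Icc T1 T2)) ∩ {p : (ι → ℝ) × ℝ |
        ∑ x ∈ (Fintype.piFinset fun i => if i ∈ J then Finset.Ico P M else {0}),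
          (if |F J (n + 2) x p.1 - p.2| ≤ r then (1:ℝ) else 0) < w} := by
    ext p
    have e2 : ((rp J n P M r p.1 p.2).card : ℝ)
        = ∑ x ∈ (Fintype.piFinset fun i => if i ∈ J then Finset.Ico P M else {0}),
          (if |F J (n + 2) x p.1 - p.2| ≤ r then (1:ℝ) else 0) := by
      unfold rp
      rw [Finset.card_filter]
      push_cast
      refine Finset.sum_congr rfl fun x _ => ?_
      congr
    simp only [BadC, Set.mem_ofPred_eq, Set.mem_inter_iff, Set.mem_preimage, e2]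
  rw [e]
  refine (measurable_snd measurableSet_Icc).inter (measurableSet_lt ?_ measurable_const)
  refine Finset.measurable_sum _ fun x _ => ?_
  have hc : Continuous fun p : (ι → ℝ) × ℝ => |F J (n + 2) x p.1 - p.2| :=
    (((F_continuous J (n + 2) x).comp continuous_fst).sub continuous_snd).abs
  exact Measurable.ite (isClosed_le hc continuous_const).measurableSet
    measurable_const measurable_const

lemma BadC_vol_measurable (J : Finset ι) (n P M : ℕ) (r T1 T2 w : ℝ) :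
    Measurable fun θ : ι → ℝ => volume (BadC J n P M r T1 T2 w θ) :=
  measurable_measure_prodMk_left (BadC_measurable J n P M r T1 T2 w)

lemma BadC_slice_measurable (J : Finset ι) (n P M : ℕ) (r T1 T2 w : ℝ) (θ : ι → ℝ) :
    MeasurableSet (BadC J n P M r T1 T2 w θ) :=
  measurable_prodMk_left (BadC_measurable J n P M r T1 T2 w)

/-- The exceptional set at scale `j`. -/
noncomputable def BadSC (n : ℕ) (E : ℝ) (r w : ℕ → ℝ) (M : ℕ → ℕ) (J : Finset ι) (j : ℕ)
    (θ : ι → ℝ) : Set ℝ :=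
  BadC J n (PP j) (M j) (r j) (2 ^ (n + 2) * J.card * (PP j : ℝ) ^ (n + 2))
    (E * (PP j : ℝ) ^ (n + 2)) (w j) θ

lemma BadC_next {J : Finset ι} {i : ι} (hi : i ∉ J) (n : ℕ) (E : ℝ) (r w : ℕ → ℝ) (M : ℕ → ℕ)
    (j : ℕ) (θ : ι → ℝ) (hw : 0 ≤ w j) (hM : 2 * PP j ≤ M j)
    {s : ℝ} (hs : s ∈ Set.Icc (0:ℝ) 1) :
    BadSC n E r (fun j => w j * (PP j / 32)) M (insert i J) j (Function.update θ i s)
      ⊆ NextC (BadSC n E r w M J j θ) n (PP j) s := by
  classical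
  intro t ht
  obtain ⟨ht1, ht2⟩ := ht
  by_contra hcon
  unfold NextC at hcon
  rw [Set.mem_ofPred_eq, not_le] at hcon
  set U := (Finset.Ico (PP j) (2 * PP j)).filter
    fun x : ℕ => t - ((x : ℝ) + s) ^ (n + 2) ∉ BadSC n E r w M J j θ with hU
  have hP := PP_pos' j
  have hs0 := hs.1
  have hgood : ∀ x ∈ U, w j ≤ ((rp J n (PP j) (M j) (r j) θ (t - ((x : ℝ) + s) ^ (n + 2))).card : ℝ) := by
    intro x hx
    rw [hU, Finset.mem_filter, Finset.mem_Ico] at hx
    obtain ⟨⟨hx1, hx2⟩, hx3⟩ := hx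
    by_contra hlt
    push Not at hlt
    apply hx3
    have hxs : ((x : ℝ) + s) ^ (n + 2) ≤ (2 * (PP j : ℝ)) ^ (n + 2) := by
      have h3 : (x : ℝ) + s ≤ 2 * PP j := by
        have : x + 1 ≤ 2 * PP j := hx2
        have : ((x + 1 : ℕ) : ℝ) ≤ ((2 * PP j : ℕ) : ℝ) := by exact_mod_cast this
        push_cast at this
        linarith [hs.2]
      exact pow_le_pow_left₀ (by positivity) h3 _
    have hxs0 : 0 ≤ ((x : ℝ) + s) ^ (n + 2) := by positivity
    refine ⟨⟨?_, ?_⟩, hlt⟩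
    · have h4 := ht1.1
      rw [Finset.card_insert_of_notMem hi] at h4
      push_cast at h4
      rw [mul_pow] at hxs
      nlinarith
    · linarith [ht1.2]
  have h1 := rp_insert hi n (PP j) (M j) (r j) θ s t
  have h2 : w j * (U.card : ℝ) ≤
      ((rp (insert i J) n (PP j) (M j) (r j) (Function.update θ i s) t).card : ℝ) := by
    calc w j * (U.card : ℝ) = ∑ x ∈ U, w j := by
          rw [Finset.sum_const, nsmul_eq_mul, mul_comm]
      _ ≤ ∑ x ∈ U, ((rp J n (PP j) (M j) (r j) θ (t - ((x : ℝ) + s) ^ (n + 2))).card : ℝ) :=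
          Finset.sum_le_sum hgood
      _ ≤ ∑ x ∈ Finset.Ico (PP j) (M j),
          ((rp J n (PP j) (M j) (r j) θ (t - ((x : ℝ) + s) ^ (n + 2))).card : ℝ) := by
          refine Finset.sum_le_sum_of_subset_of_nonneg ?_ fun _ _ _ => by positivity
          refine (Finset.filter_subset _ _).trans ?_
          exact Finset.Ico_subset_Ico le_rfl hM
      _ ≤ _ := by exact_mod_cast h1
  have h3 : (PP j : ℝ) / 32 ≤ U.card := by
    have : ((PP j : ℕ) : ℝ) ≤ ((32 * U.card : ℕ) : ℝ) := by exact_mod_cast hcon.le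
    push_cast at this
    linarith
  have h4 : w j * (PP j / 32) ≤ w j * (U.card : ℝ) := mul_le_mul_of_nonneg_left h3 hw
  dsimp only at ht2
  linarith

/-- The statement proved by induction. -/
def ClC (n : ℕ) (E : ℝ) (r w : ℕ → ℝ) (M : ℕ → ℕ) (J : Finset ι) (e : ℝ) : Prop :=
  ∀ᵐ θ ∂(cube ι), ∀ᶠ j in atTop,
    volume (BadSC n E r w M J j θ) ≤ ENNReal.ofReal ((PP j : ℝ) ^ ((n : ℝ) + 2 - e))

theorem ClC_step (n : ℕ) {E : ℝ} {r w : ℕ → ℝ} {M : ℕ → ℕ} {J : Finset ι} {i : ι} (hi : i ∉ J)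
    (hw : ∀ j, 0 ≤ w j) (hM : ∀ j, 2 * PP j ≤ M j) {e e' : ℝ}
    (he : e' < 2 * e) (h : ClC n E r w M J e) :
    ClC n E r (fun j => w j * (PP j / 32)) M (insert i J) e' := by
  set w' : ℕ → ℝ := fun j => w j * (PP j / 32) with hw'
  set A : ℕ → Set (ι → ℝ) := fun j => {θ | (∀ l, θ l ∈ Set.Icc (0:ℝ) 1) ∧
    volume (BadSC n E r w M J j θ) ≤ ENNReal.ofReal ((PP j : ℝ) ^ ((n : ℝ) + 2 - e)) ∧
    ENNReal.ofReal ((PP j : ℝ) ^ ((n : ℝ) + 2 - e')) < volume (BadSC n E r w' M (insert i J) j θ)} with hA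
  have hAm : ∀ j, MeasurableSet (A j) := by
    intro j
    refine cube_meas.inter (MeasurableSet.inter ?_ ?_)
    · exact measurableSet_le (BadC_vol_measurable _ _ _ _ _ _ _ _) measurable_const
    · exact measurableSet_lt measurable_const (BadC_vol_measurable _ _ _ _ _ _ _ _)
  have hbound : ∀ j, cube ι (A j) ≤ ENNReal.ofReal (32 * (PP j : ℝ) ^ (-(2 * e - e'))) := by
    intro j
    refine slice (hAm j) i fun θ => ?_
    set S : Set ℝ := {t | Function.update θ i t ∈ A j} with hS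
    rcases S.eq_empty_or_nonempty with hemp | ⟨s0, hs0⟩
    · rw [hemp]; simp
    have hP := PP_pos' j
    set E0 : Set ℝ := BadSC n E r w M J j θ with hE0
    have hE0m : MeasurableSet E0 := BadC_slice_measurable _ _ _ _ _ _ _ _ _
    have hvol : volume E0 ≤ ENNReal.ofReal ((PP j : ℝ) ^ ((n : ℝ) + 2 - e)) := by
      have h1 := hs0.2.1
      unfold BadSC at h1
      rw [BadC_update n _ _ _ _ _ _ θ hi] at h1
      exact h1
    have hsub : S ⊆ {s | ENNReal.ofReal ((PP j : ℝ) ^ ((n : ℝ) + 2 - e'))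
        ≤ volume (NextC E0 n (PP j) s)} := by
      intro s hs
      have hs1 : s ∈ Set.Icc (0:ℝ) 1 := by
        have := hs.1 i
        rwa [Function.update_self] at this
      exact hs.2.2.le.trans (measure_mono (BadC_next hi n E r w M j θ (hw j) (hM j) hs1))
    have hmk := mul_meas_ge_le_lintegral (μ := volume.restrict (Set.Icc (0:ℝ) 1))
      (NextC_measurable hE0m n (PP j)) (ENNReal.ofReal ((PP j : ℝ) ^ ((n : ℝ) + 2 - e')))
    have hsq := squaringC n hE0m (P := PP j) (Q := 2 ^ j) (by positivity) (PP_four j)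
    have hmono := measure_mono (μ := volume.restrict (Set.Icc (0:ℝ) 1)) hsub
    have hc : (0:ℝ) < ((2 ^ j : ℕ) : ℝ) ^ 2 * (PP j : ℝ) ^ n := by
      have : (0:ℝ) < ((2 ^ j : ℕ) : ℝ) := by positivity
      positivity
    have hb : (0:ℝ) < (PP j : ℝ) ^ ((n : ℝ) + 2 - e') := Real.rpow_pos_of_pos hP _
    have hfin : ENNReal.ofReal ((((2 ^ j : ℕ) : ℝ) ^ 2 * (PP j : ℝ) ^ n)
        * (PP j : ℝ) ^ ((n : ℝ) + 2 - e')) * (volume.restrict (Set.Icc (0:ℝ) 1)) S
        ≤ ENNReal.ofReal (2 * ((PP j : ℝ) ^ ((n : ℝ) + 2 - e)) ^ 2) := by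
      rw [ENNReal.ofReal_mul hc.le, mul_assoc, ENNReal.ofReal_mul (by norm_num : (0:ℝ) ≤ 2),
        ENNReal.ofReal_pow (Real.rpow_pos_of_pos hP _).le, ENNReal.ofReal_ofNat]
      calc _ ≤ ENNReal.ofReal (((2 ^ j : ℕ) : ℝ) ^ 2 * (PP j : ℝ) ^ n)
            * ∫⁻ s in Set.Icc (0:ℝ) 1, volume (NextC E0 n (PP j) s) := by
            gcongr
            exact le_trans (by gcongr) hmk
        _ ≤ 2 * volume E0 ^ 2 := hsq
        _ ≤ _ := by gcongr
    have hdiv : (volume.restrict (Set.Icc (0:ℝ) 1)) S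
        ≤ ENNReal.ofReal (2 * ((PP j : ℝ) ^ ((n : ℝ) + 2 - e)) ^ 2
          / ((((2 ^ j : ℕ) : ℝ) ^ 2 * (PP j : ℝ) ^ n) * (PP j : ℝ) ^ ((n : ℝ) + 2 - e'))) := by
      rw [ENNReal.ofReal_div_of_pos (by positivity), ENNReal.le_div_iff_mul_le
        (Or.inl (ENNReal.ofReal_pos.2 (by positivity)).ne') (Or.inl ENNReal.ofReal_ne_top), mul_comm]
      exact hfin
    refine hdiv.trans (ENNReal.ofReal_le_ofReal (le_of_eq ?_))
    have hPQ : (PP j : ℝ) = 4 * ((2 ^ j : ℕ) : ℝ) := by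
      rw [PP_four]; push_cast; ring
    have e1 : ((2 ^ j : ℕ) : ℝ) ^ 2 * (PP j : ℝ) ^ n = (PP j : ℝ) ^ ((n : ℝ) + 2) / 16 := by
      have : (PP j : ℝ) ^ ((n : ℝ) + 2) = (PP j : ℝ) ^ (n + 2) := by
        rw [← Real.rpow_natCast]
        push_cast
        rfl
      rw [this, pow_add]
      have h16 : (PP j : ℝ) ^ 2 = 16 * ((2 ^ j : ℕ) : ℝ) ^ 2 := by rw [hPQ]; ring
      rw [h16]
      ring
    rw [e1, ← Real.rpow_natCast, ← Real.rpow_mul hP.le]
    rw [div_mul_eq_mul_div, ← Real.rpow_add hP, div_div_eq_mul_div]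
    rw [show 2 * (PP j : ℝ) ^ (((n : ℝ) + 2 - e) * ((2 : ℕ) : ℝ)) * 16
      = 32 * (PP j : ℝ) ^ (((n : ℝ) + 2 - e) * ((2 : ℕ) : ℝ)) by ring, mul_div_assoc,
      ← Real.rpow_sub hP]
    congr 2
    push_cast
    ring
  have hbc := bc A 32 (δ := 2 * e - e') (by linarith) (Eventually.of_forall hbound)
  filter_upwards [h, hbc, ae_cube (ι := ι)] with θ h1 h2 h3
  filter_upwards [h1, h2] with j h4 h5
  by_contra hcon
  push Not at hcon
  exact h5 ⟨h3, h4, hcon⟩

end Pool.Agent.X25.CT
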